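import Pool.Agent.H78.MIC.Win

/-!
# Chains with gain at a small radius, thresholds on the diagonal

`GnW2 D l g r`: near the window `g`, at the scale `r`, there is a chain with gain of the coordinate
`l`, of the class `D`, of radius at most `g + 27 / 64 r`, on large events. `DiaR`: there are no better
labels on the diagonal.
-/

set_option autoImplicit false

namespace Pool.PKG

open MeasureTheory Set Filter Topology
open Pool.Agent.H49.Ent Pool.Agent.H32.Dense Pool.STK Pool.KA Pool.KSAT Pool.K2S Pool.PB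
open Pool.GEN Pool.S6C Pool.STAT Pool.CHT Pool.GRW Pool.ONE Pool.STA
open Pool.RTS (iso Diag)

variable {n : ℕ}

/-- **The numbers of a chain with gain at a small radius**; `D k`: the levels on the diagonal. -/
structure GnN2 (D : ℕ → ℝ → ℝ) (l : ℕ) (g r aT wT : ℝ) (β : ℕ → ℝ) : Prop where
  ag : g ≤ aT
  rad : aT ≤ g + 27 / 64 * r
  win : wT ≤ g
  lo : ∀ k ≤ l, r / 4 ≤ β k
  up : ∀ k ≤ l, β k ≤ D k aT
  gn : D l g + r + r / 8 ≤ β l

/-- **A chain with gain** of the coordinate `l` near the window `g`, at the scale `r`, radius at most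
`g + 27 / 64 r`. -/
def GnW2 (hn : 2 ≤ n) (S : PCl n) (P : ℝ → ℝ → ℝ) (P' : ℕ → List (Fin n) × Fin n → ℝ → ℝ → ℝ)
    (o : Od n) (D l : ℕ) (g r : ℝ) : Prop :=
  ∃ (aT wT eT : ℝ) (β : ℕ → ℝ) (K₁ : ℝ), 0 < K₁ ∧ GnN2 (dgN hn P P' o) l g r aT wT β ∧
    Bas S fun J F A => ∃ B : F.Ω → Prop, Sub B A ∧ Pe F.p A ≤ K₁ * Pe F.p B ∧
      Chn (cc hn o.1.1) (l + 1) (fun _ => D) aT wT eT β J F B

/-- **No better labels on the diagonal**, up to `d`. -/
def DiaR (hn : 2 ≤ n) (P : ℝ → ℝ → ℝ) (P' PW : ℕ → List (Fin n) × Fin n → ℝ → ℝ → ℝ)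
    (o : Od n) (k : ℕ) (g r d : ℝ) : Prop :=
  ∀ a : ℝ, |a - g| ≤ 7 * r → bet (PW o.2) (cc hn o.1.1) k a a ≤ dgN hn P P' o k a + d

end Pool.PKG
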