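import Pool.Agent.H78.MIC.ConH

/-!
# No better labels on the diagonal

`no_dia`: the thresholds on the diagonal exclude better labels on balls, for shifts of the radius
and the window of the size of the losses.
-/

set_option autoImplicit false

namespace Pool.STG

open Finset MvPolynomial
open Pool.Agent.H49.Ent Pool.Agent.H32.Dense Pool.STK Pool.KS3 Pool.KA Pool.KSAT Pool.PB Pool.GEN
open Pool.K2S Pool.S6C Pool.STAT
open Pool.CHT (bet TmH)
open Pool.CHB (chsysB)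
open Pool.LBT (ThrOf)
open Pool.LEV (Law)
open CLO

variable {m : ℕ}

/-- **No better labels on a ball** of the radius and window `z`, and on the balls with a shift `μ`
from `ξ` up to `Cy ξ`. -/
theorem no_dia {S : PCl m} {β PW : List (Fin m) × Fin m → ℝ → ℝ → ℝ}
    (hP : ThrOf (chsysB m none β) S PW) {c : ℕ → Fin m} {k V Cy Kn C' : ℕ}
    {z ξ h Dk Sk : ℝ} {Dk' : ℕ → ℝ} (hz : 0 < z) (hξ : 0 < ξ) (h1 : z + h ≤ 1)
    (hh : (4 * Cy + 8) * ξ ≤ h)
    (hPW : ∀ w, z ≤ w → w ≤ z + h → bet PW c k w w ≤ Dk + Sk * (w - z) + ξ / 16)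
    (hSk : 0 ≤ Sk) (hV : 5 * Sk + 2 ≤ V)
    (hβ : ∀ k' < k, ∀ w, z ≤ w → w ≤ z + h → Dk' k' + (w - z) ≤ bet β c k' w w)
    (hD1 : Dk + (Sk + 1) * h ≤ 1) (hD2 : ∀ k' < k, 0 ≤ Dk' k' ∧ Dk' k' + h ≤ 1) :
    Bas S fun J F A => ∀ rd μ : ℕ, z * J + up ξ J ≤ rd → (rd : ℝ) ≤ z * J + up ξ J + C' →
      up ξ J ≤ μ → μ ≤ Cy * up ξ J → ∀ (e' : ℕ) (g' : ℕ → ℕ),
      (∀ k' < k, (g' k' : ℝ) ≤ Dk' k' * J + 4 * μ) → (Dk - ξ / 8) * J + V * μ ≤ g' k →
      g' k ≤ J → ¬ ChN F c (k + 1) (fun _ => Kn) (rd + 4 * μ) (rd + 4 * μ) e' g' A := by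
  have hC0 : (0 : ℝ) ≤ Cy := Nat.cast_nonneg Cy
  obtain ⟨v, hv⟩ : ∃ v, v = ξ / (64 * (Sk + 1)) := ⟨_, rfl⟩
  have hv0 : 0 < v := by rw [hv]; positivity
  have hv1 : (Sk + 1) * v = ξ / 64 := by rw [hv]; field_simp
  have hvξ : v ≤ ξ / 64 := by nlinarith only [hv0, hv1, hSk]
  obtain ⟨nt, hnt⟩ := exists_nat_ge ((Cy + 1) * ξ / v + 1)
  have hntv : ((Cy : ℝ) + 1) * ξ + v ≤ nt * v := by
    have h1 := mul_le_mul_of_nonneg_right hnt hv0.le
    have h2 : ((Cy + 1) * ξ / v + 1) * v = (Cy + 1) * ξ + v := by field_simp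
    linarith only [h1, h2]
  have key : ∀ t < nt + 1, Bas S fun J F A => ∀ rd μ : ℕ, z * J + up ξ J ≤ rd →
      (rd : ℝ) ≤ z * J + up ξ J + C' → up ξ J ≤ μ → μ ≤ Cy * up ξ J → (μ : ℝ) ≤ t * v * J →
      (t * v * J : ℝ) ≤ μ + v * J → ∀ (e' : ℕ) (g' : ℕ → ℕ),
      (∀ k' < k, (g' k' : ℝ) ≤ Dk' k' * J + 4 * μ) → (Dk - ξ / 8) * J + V * μ ≤ g' k →
      g' k ≤ J → ¬ ChN F c (k + 1) (fun _ => Kn) (rd + 4 * μ) (rd + 4 * μ) e' g' A := by
    intro t ht
    by_cases htv : (t : ℝ) * v ≤ (Cy + 1) * ξ + v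
    swap
    · -- no shifts
      obtain ⟨J₁, hJ₁⟩ := exists_nat_ge (Cy / ξ)
      refine ⟨1, one_pos, max J₁ 1, ?_⟩
      intro J hJ F A _ rd μ _ _ h1 h2 h3 h4
      exfalso
      refine htv ?_
      have hJ1 : (1 : ℝ) ≤ J := by exact_mod_cast (le_max_right _ _).trans hJ
      have h5 : Cy / ξ ≤ J := hJ₁.trans (by exact_mod_cast (le_max_left _ _).trans hJ)
      rw [div_le_iff₀ hξ] at h5
      have h6 : (μ : ℝ) ≤ Cy * up ξ J := by exact_mod_cast h2
      have h7 := mul_le_mul_of_nonneg_left (up_le hξ.le J) hC0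
      have h8 : (t : ℝ) * v * J ≤ ((Cy + 1) * ξ + v) * J := by
        calc (t : ℝ) * v * J ≤ μ + v * J := h4
          _ ≤ Cy * (ξ * J + 1) + v * J := by linarith only [h6, h7]
          _ ≤ _ := by linarith only [h5]
      exact le_of_mul_le_mul_right h8 (by linarith)
    have tv0 : 0 ≤ (t : ℝ) * v := by positivity
    obtain ⟨w, hw1, hw2⟩ := exists_rat_btwn
      (show z + ξ + 4 * (t * v) < z + ξ + 4 * (t * v) + v by linarith only [hv0])
    have hsize : ξ + 4 * (t * v) + v ≤ h := by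
      refine le_trans ?_ hh
      nlinarith only [htv, hvξ, hξ, hC0]
    have hwh : (w : ℝ) ≤ z + h := by linarith only [hw2, hsize]
    have hwz : z ≤ (w : ℝ) := by linarith only [hw1, hξ, tv0]
    have hw0 : (0 : ℝ) < w := by linarith only [hwz, hz]
    have hthr := hPW w hwz hwh
    have hL1 : bet PW c k w w + ξ / 8 ≤ 1 := by
      have h2 : Sk * (w - z) ≤ Sk * h := mul_le_mul_of_nonneg_left (by linarith only [hwh]) hSk
      have h3 : 8 * ξ ≤ h := by nlinarith only [hh, hC0, hξ]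
      linarith only [hthr, h2, h3, hD1, hξ]
    obtain ⟨L', hL'⟩ : ∃ L' : ℕ → ℝ → ℝ → ℝ, L' = fun k' => if k' < k then
      bet β c k' else bet PW c k := ⟨_, rfl⟩
    have hL'k : ∀ k' < k, L' k' = bet β c k' := fun k' hk' => by rw [hL']; exact if_pos hk'
    have hL'n : L' k = bet PW c k := by rw [hL']; exact if_neg (lt_irrefl _)
    have hno := CellL.no_of_B (L := L') (l := k) hP (c := c) (fun a w => by rw [hL'n])
      (fun k' hk' a w => by rw [hL'k k' hk']) Kn w w (ξ / 8) (ξ / 2) (by exact_mod_cast hw0.le)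
      le_rfl (by
        have : (w : ℝ) ≤ 1 := by linarith only [hwh, h1]
        exact_mod_cast this) (by positivity) (by positivity)
      (by rw [hL'n]; exact hL1)
    -- large `J`
    obtain ⟨J₁, hJ₁⟩ := exists_nat_gt
      ((C' + 2) / ((w : ℝ) - (z + ξ + 4 * (t * v))) : ℝ)
    obtain ⟨J₂, hJ₂⟩ := exists_nat_ge ((C' + 4 * Cy + 8) / ξ)
    refine Bas.mono (max J₁ (max J₂ 1)) hno ?_
    rintro J hJ F A hno rd μ r1 r2 m1 m2 m3 m4 e' g' q1 q2 q3 ⟨Gc, Hc, hch⟩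
    have j1 : (J₁ : ℝ) ≤ J := by exact_mod_cast (le_max_left _ _).trans hJ
    have j2 : (C' + 4 * Cy + 8) / ξ ≤ J := hJ₂.trans (by
      exact_mod_cast ((le_max_left _ _).trans (le_max_right _ _)).trans hJ)
    have j4 : 1 ≤ J := ((le_max_right _ _).trans (le_max_right _ _)).trans hJ
    have hJ0 : (0 : ℝ) < J := by exact_mod_cast j4
    rw [div_le_iff₀ hξ] at j2
    have k1 : ((C' : ℝ) + 2) < J * (w - (z + ξ + 4 * (t * v))) := by
      rw [div_lt_iff₀ (by linarith only [hw1])] at hJ₁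
      exact hJ₁.trans_le (mul_le_mul_of_nonneg_right j1 (by linarith only [hw1]))
    have hC'0 : (0 : ℝ) ≤ C' := Nat.cast_nonneg C'
    have z1 : ξ * J ≤ up ξ J := up_ge ξ J
    have z2 : (up ξ J : ℝ) ≤ ξ * J + 1 := up_le hξ.le J
    have hμ1 : ξ * J ≤ μ := z1.trans (by exact_mod_cast m1)
    have hμ2 : (μ : ℝ) ≤ Cy * (ξ * J + 1) :=
      (by exact_mod_cast m2 : (μ : ℝ) ≤ Cy * up ξ J).trans (mul_le_mul_of_nonneg_left z2 hC0)
    have hμ0 : (0 : ℝ) ≤ μ := Nat.cast_nonneg μ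
    have ra : rd + 4 * μ ≤ ⌊(w : ℝ) * J⌋₊ := by
      refine Nat.le_floor ?_
      push_cast
      linarith only [r2, m3, z2, k1]
    obtain ⟨u, hu⟩ : ∃ u : ℝ, u = ((rd + 4 * μ : ℕ) : ℝ) / J := ⟨_, rfl⟩
    have huJ : u * J = rd + 4 * μ := by
      rw [hu, div_mul_cancel₀ _ hJ0.ne']
      push_cast
      ring
    have hu1 : z + ξ ≤ u := by
      have h3 : (z + ξ) * J ≤ u * J := by
        rw [huJ]
        linarith only [r1, z1, hμ0]
      exact le_of_mul_le_mul_right h3 hJ0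
    have hu2 : u ≤ z + h := by
      have h3 : u * J ≤ (z + h) * J := by
        rw [huJ]
        have h4 := mul_le_mul_of_nonneg_right hh hJ0.le
        linarith only [h4, r2, z2, hμ2, j2, hξ, hC'0, hC0]
      exact le_of_mul_le_mul_right h3 hJ0
    refine hno (rd + 4 * μ) (rd + 4 * μ) e' g' Gc Hc
      ⟨j4, le_rfl, ra, ra, fun k' hk' => ?_, fun k' hk' => ?_, ?_⟩ hch
    · rcases Nat.lt_or_ge k' k with hk'' | hk''
      · have h3 := q1 k' hk''
        have h4 := (hD2 k' hk'').2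
        have h5 : (g' k' : ℝ) ≤ (J : ℝ) := by
          have h6 := mul_le_mul_of_nonneg_right hh hJ0.le
          have h7 := mul_le_mul_of_nonneg_right h4 hJ0.le
          linarith only [h3, h6, h7, hμ2, j2, hC'0, hC0, mul_pos hξ hJ0]
        exact_mod_cast h5
      · obtain rfl : k' = k := by omega
        exact q3
    · rw [hL'k k' hk']
      have h3 := q1 k' hk'
      have h4 := hβ k' hk' u (by linarith only [hu1, hξ]) hu2
      rw [← hu]
      refine le_trans ?_ (le_max_right _ _)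
      have h5 : (Dk' k' + (u - z)) * J ≤ bet β c k' u u * J :=
        mul_le_mul_of_nonneg_right h4 hJ0.le
      have h6 : (Dk' k' + (u - z)) * J = Dk' k' * J + (u * J - z * J) := by ring
      rw [h6, huJ] at h5
      have h7 : (bet β c k' u u - ξ / 2) * J = bet β c k' u u * J - ξ / 2 * J := by ring
      rw [h7]
      linarith only [h3, h5, r1, z1, mul_pos hξ hJ0]
    · rw [hL'n]
      have h2 : ⌊(bet PW c k w w + ξ / 8) * (J : ℝ)⌋₊ ≤ g' k := by
        refine Nat.floor_le_of_le (le_trans ?_ q2)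
        have h3 : (bet PW c k w w + ξ / 8) * (J : ℝ) ≤
            (Dk + Sk * (ξ + 4 * (t * v) + v) + ξ / 16 + ξ / 8) * J := by
          refine mul_le_mul_of_nonneg_right ?_ hJ0.le
          have h4 : Sk * (w - z) ≤ Sk * (ξ + 4 * (t * v) + v) :=
            mul_le_mul_of_nonneg_left (by linarith only [hw2]) hSk
          linarith only [hthr, h4]
        have h5 : Sk * (ξ * J + 4 * (t * v * J) + v * J) ≤ Sk * (5 * μ + 5 * (v * J)) :=
          mul_le_mul_of_nonneg_left (by linarith only [hμ1, m4]) hSk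
        have h6 : (5 * Sk + 2) * μ ≤ V * μ := mul_le_mul_of_nonneg_right hV hμ0
        have h7 : 5 * (Sk * v) * J ≤ 5 * (ξ / 64) * J := by
          refine mul_le_mul_of_nonneg_right ?_ hJ0.le
          linarith only [hv1, hv0]
        linarith only [h3, h5, h6, h7, hμ1, mul_pos hξ hJ0]
      have h3 := ra
      omega
  -- all the points of the net
  obtain ⟨J₁, hJ₁⟩ := exists_nat_ge (Cy / ξ)
  refine Bas.mono (max J₁ 1) (Bas.all (nt + 1) fun t ht => key t ht) ?_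
  intro J hJ F A hall rd μ r1 r2 m1 m2 e' g' q1 q2 q3
  have hJ1 : (1 : ℝ) ≤ J := by exact_mod_cast (le_max_right _ _).trans hJ
  have hJ0 : (0 : ℝ) < J := by linarith
  have h5 : Cy / ξ ≤ J := hJ₁.trans (by exact_mod_cast (le_max_left _ _).trans hJ)
  rw [div_le_iff₀ hξ] at h5
  obtain ⟨t, ht⟩ : ∃ t, t = ⌈(μ : ℝ) / (v * J)⌉₊ := ⟨_, rfl⟩
  have hvJ : 0 < v * J := mul_pos hv0 hJ0
  have t1 : (μ : ℝ) / (v * J) ≤ t := by rw [ht]; exact Nat.le_ceil _
  have t2 : (t : ℝ) < (μ : ℝ) / (v * J) + 1 := by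
    rw [ht]; exact Nat.ceil_lt_add_one (by positivity)
  have t3 : (μ : ℝ) ≤ t * v * J := by
    rw [div_le_iff₀ hvJ] at t1
    linarith only [t1]
  have t4 : (t * v * J : ℝ) ≤ μ + v * J := by
    have h1 := mul_lt_mul_of_pos_right t2 hvJ
    rw [add_mul, div_mul_cancel₀ _ hvJ.ne', one_mul] at h1
    linarith only [h1]
  refine hall t ?_ rd μ r1 r2 m1 m2 t3 t4 e' g' q1 q2 q3
  have h6 : (μ : ℝ) ≤ Cy * up ξ J := by exact_mod_cast m2
  have h7 := mul_le_mul_of_nonneg_left (up_le hξ.le J) hC0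
  have h8 : (t : ℝ) * v * J ≤ ((Cy + 1) * ξ + v) * J := by linarith only [t4, h6, h7, h5]
  have h9 : (t : ℝ) * v ≤ (Cy + 1) * ξ + v := le_of_mul_le_mul_right h8 hJ0
  have h10 : (t : ℝ) ≤ nt := le_of_mul_le_mul_right (h9.trans hntv) hv0
  have h11 : t ≤ nt := by exact_mod_cast h10
  omega

end Pool.STG
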