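import Pool.Agent.H89.STG.Num
import Pool.Agent.H89.STG.Dia
import Pool.Agent.H89.STG.Def
import Pool.Agent.H2.GEN.Rlv
import Pool.Agent.H78.MIC.ConK
import Pool.Agent.H2.GEN.ChnQ

/-!
# The label with gain at a window

`bal_lg`: the charts of the balls on large events. `stg_bas`: the label with gain on the grid, on
large subevents, at one window.
-/

set_option autoImplicit false

namespace Pool.STG

open Finset MvPolynomial
open Pool.Agent.H49.Ent Pool.Agent.H32.Dense Pool.STK Pool.KS3 Pool.KA Pool.KSAT Pool.PB Pool.GEN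
open Pool.K2S Pool.S6C Pool.STAT Pool.ISO
open Pool.CHT (bet TmH chsys)
open Pool.CHB (chsysB)
open Pool.LBT (ThrOf)
open Pool.LEV (Law)
open Pool.RLV (TmN)
open Pool.PKG (GnN2)
open CLO

variable {m : ℕ}

/-- **The chart of a ball**: radius and window `rd`, precisions near to `Dv k`. -/
def BlQ (cs : ℕ → Fin m) (n K l : ℕ) (Dv : ℕ → ℝ) (δ r : ℝ) (rd : ℕ → ℕ) : Stat m := fun J F B =>
  ∃ (e : ℕ) (g : ℕ → ℕ) (G : PtT F → ℕ → MvPolynomial (Option (Fin m)) ℝ)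
    (H : LnT F → ℕ → MvPolynomial (Option (Fin m)) ℝ),
    ChOK F cs n (fun _ => K) (rd J) (rd J) e g B G H ∧
    (∀ k ≤ l, (Dv k - δ / 2) * J ≤ g k ∧ (g k : ℝ) ≤ Dv k * J) ∧
    ∀ k ≤ l, Dv k * J + e + r / 4 * J ≤ J

/-- **The charts of the balls** on large events. -/
theorem bal_lg (m n₀ l : ℕ) (hl : l < n₀) {c : ℝ} (hc : 0 < c) (hc1 : c ≤ 1) : ∃ (Db : ℕ) (C₀ : ℝ),
    1 ≤ C₀ ∧ ∀ {S : PCl m} {Pc : List (Fin m) × Fin m → ℝ → ℝ → ℝ} {θ' : ℝ} {cs : ℕ → Fin m}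
    {Pt : ℝ → ℝ → ℝ} {W : Set ℝ} {sg g r : ℝ}, S.Ne → ThrOf (chsys m θ') S Pc → TmH S →
    Set.InjOn cs (Set.Iio (n₀ + 1)) → Law Pt → ChI S Pc θ' cs n₀ Pt W sg c g r → 0 < r →
    C₀ * r ≤ 1 → ∀ {ε δ : ℝ}, 0 ≤ ε → 0 < δ → C₀ * (ε * r) < δ / 4 → δ ≤ r → r ≤ c / 4 →
    (∀ k ≤ n₀, ∃ V Sl : ℝ, c * Sl ≤ 1 ∧ ∀ w : ℝ, |w - g| ≤ 8 * r →
      |lvN Pc cs n₀ Pt k w w - V - Sl * (w - g)| ≤ ε * r) →
    ∀ {z : ℝ}, g ≤ z → z ≤ g + r → ∀ (rd : ℕ → ℕ) (J₁ : ℕ),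
      (∀ J ≥ J₁, z * J ≤ rd J ∧ (rd J : ℝ) ≤ (z + r) * J) →
      Lg S (BlQ cs (n₀ + 1) Db l (fun k => bet Pc cs k z z) δ r rd) := by
  obtain ⟨Db, C₀, hDb, hC₀, hwin⟩ := chn_win m n₀ hc hc1
  refine ⟨Db, C₀, hC₀, ?_⟩
  intro S Pc θ' cs Pt W sg g r hne hP hS hinj hPt hI hr hCr ε δ hε hδ hεδ hδr hrc haf z hz1 hz2
    rd J₁ hrd
  obtain ⟨E, K₁, μ, bb, hE, hK₁, hμ, hbb, hroom, hbas⟩ := hwin hne hP hS hinj hPt hI hr hCr
    (ε := ε) (σ := δ / 4) hε (by linarith) hεδ (by linarith) haf hz1 hz2 0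
  have hz0 : 0 < z := by
    have := hI.g0
    linarith
  have hzw : z ≤ 1 := by
    have := hI.g1
    linarith
  obtain ⟨J₂, hJ₂⟩ := exists_nat_ge (1 / μ + 16 / c)
  have hlv : ∀ k ≤ l, lvN Pc cs n₀ Pt k z z = bet Pc cs k z z := fun k hk => by
    unfold lvN
    rw [if_pos (by omega)]
  refine ⟨max 1 K₁, le_max_left _ _, Bas.mono (max J₁ (max J₂ 1)) hbas ?_⟩
  intro J hJ F A hA
  have hJ1 : J₁ ≤ J := (le_max_left _ _).trans hJ
  have hJ2 : 1 / μ + 16 / c ≤ (J : ℝ) := hJ₂.trans (by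
    exact_mod_cast ((le_max_left _ _).trans (le_max_right _ _)).trans hJ)
  have hJ3 : 1 ≤ J := ((le_max_right _ _).trans (le_max_right _ _)).trans hJ
  have hJ0 : (0 : ℝ) < J := by exact_mod_cast hJ3
  have hμJ : 1 ≤ μ * J := by
    have h1 : 1 / μ ≤ (J : ℝ) := by
      have : 0 < 16 / c := by positivity
      linarith
    rw [div_le_iff₀ hμ] at h1
    linarith
  have hcJ : 16 ≤ c * J := by
    have h1 : 16 / c ≤ (J : ℝ) := by
      have : 0 < 1 / μ := by positivity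
      linarith
    rw [div_le_iff₀ hc] at h1
    linarith
  obtain ⟨r1, r2⟩ := hrd J hJ1
  have hr4 : 0 ≤ r / 4 * (J : ℝ) := by positivity
  obtain ⟨B, g₀, G₀, H₀, l1, l2, l3⟩ := hA (rd J) (fun _ => rd J + ⌈r / 4 * J⌉₊)
    (fun _ k => ⌊bb k * J + (((rd J + ⌈r / 4 * J⌉₊ : ℕ) : ℝ) - rd J)⌋₊) r1 r2
    (fun i _ => by
      have := Nat.le_ceil (r / 4 * (J : ℝ))
      push_cast
      linarith)
    (fun i _ => by
      have := Nat.ceil_lt_add_one hr4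
      push_cast
      have h2 : r / 4 * (J : ℝ) ≤ c / 4 / 4 * J := by
        refine mul_le_mul_of_nonneg_right ?_ hJ0.le
        linarith
      linarith)
    (fun i _ k hk => by
      have h0 : 0 ≤ bb k * J + (((rd J + ⌈r / 4 * J⌉₊ : ℕ) : ℝ) - rd J) := by
        have h1 := (hbb k hk).1
        have h2 : z ≤ lvN Pc cs n₀ Pt k z z := by
          unfold lvN
          split_ifs
          · exact hP.low _ z z hz0.le le_rfl hzw
          · exact hI.low z hz0 hzw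
        have h3 : 0 ≤ bb k := by
          have := hI.g0
          linarith
        push_cast
        have h4 : (0 : ℝ) ≤ ⌈r / 4 * (J : ℝ)⌉₊ := Nat.cast_nonneg _
        have h5 : 0 ≤ bb k * (J : ℝ) := mul_nonneg h3 hJ0.le
        linarith
      have := Nat.floor_le h0
      linarith)
    (fun i _ k hk => by
      have := Nat.lt_floor_add_one (bb k * J + (((rd J + ⌈r / 4 * J⌉₊ : ℕ) : ℝ) - rd J))
      linarith)
  refine ⟨B, l1, l2.trans (mul_le_mul_of_nonneg_right (le_max_right _ _)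
    (Pe_nonneg F.isLaw _)), ⌊E * J⌋₊, g₀, G₀, H₀, l3.ball, fun k hk => ?_, fun k hk => ?_⟩
  · have h1 := l3.sd k (by omega)
    simp only [hlv k hk] at h1
    refine ⟨le_trans (le_of_eq ?_) h1.1, h1.2⟩
    ring
  · have h1 := hroom k (by omega)
    rw [hlv k hk] at h1
    have h2 := Nat.floor_le (mul_nonneg hE hJ0.le)
    have h3 : (bet Pc cs k z z + E + c / 4) * (J : ℝ) ≤ 1 * J :=
      mul_le_mul_of_nonneg_right h1 hJ0.le
    have h4 : r / 4 * (J : ℝ) ≤ c / 4 / 4 * J := by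
      refine mul_le_mul_of_nonneg_right ?_ hJ0.le
      linarith
    have h5 : 0 ≤ c * (J : ℝ) := by positivity
    linarith

theorem BlQ.her (cs : ℕ → Fin m) (n K l : ℕ) (Dv : ℕ → ℝ) (δ r : ℝ) (rd : ℕ → ℕ) (J : ℕ)
    (F : Fam m J) : Hered (BlQ cs n K l Dv δ r rd J F) := by
  rintro A B hB ⟨e, g, G, H, h1, h2, h3⟩
  exact ⟨e, g, G, H, h1.sub hB, h2, h3⟩

/-- **The label with gain on the grid**, on large subevents, at one window. -/
theorem stg_bas (m n₀ l K₀ DT K' s₁ : ℕ) (hl : l < n₀) (hK' : 1 ≤ K') {c : ℝ} (hc : 0 < c)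
    (hc1 : c ≤ 1) : ∃ (K₂ S₂ : ℕ) (C₀ N₀ : ℝ), 1 ≤ C₀ ∧ 1 ≤ N₀ ∧ ∀ {S : PCl m}
    {Pc PW : List (Fin m) × Fin m → ℝ → ℝ → ℝ} {θ' : ℝ} {cs : ℕ → Fin m} {Pt : ℝ → ℝ → ℝ}
    {W : Set ℝ} {sg g r : ℝ}, S.Ne → ThrOf (chsys m θ') S Pc → ThrOf (chsysB m none Pc) S PW →
    TmH S → Inj cs (n₀ + 1) → Law Pt → ChI S Pc θ' cs n₀ Pt W sg c g r → 0 < r → C₀ * r ≤ 1 →
    8 * r < g → ∀ {N M : ℕ} {θ ε : ℝ} {Sl : ℕ → ℝ} {b : ℕ → ℕ → ℕ → ℝ}
    {e : ℕ → ℕ → ℝ} {aT wT eT K₁ : ℝ} {β : ℕ → ℝ}, N₀ ≤ N → 0 < θ → θ ≤ 1 / 16 → 0 ≤ ε →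
    C₀ * (ε * (N * (M + 4))) ≤ θ →
    (∀ k ≤ n₀, 0 ≤ Sl k ∧ c * Sl k ≤ 1 ∧ ∀ w, |w - g| ≤ 8 * r →
      |lvN Pc cs n₀ Pt k w w - lvN Pc cs n₀ Pt k g g - Sl k * (w - g)| ≤ ε * r) →
    (∀ k < l, Sl k ≤ 2) → (∀ k ≤ l, ∀ k' < k, Sl k' ≤ Sl k) →
    (∀ k < l, ∀ k' < k, bet Pc cs k' g g ≤ bet Pc cs k g g) →
    (∀ k < l, ∀ w, |w - g| ≤ 7 * r → bet PW cs k w w ≤ bet Pc cs k w w + ε * r) →
    (∀ i ≤ M, ∀ j ≤ M, ∀ k ≤ l, b i j k ≤ bet Pc cs k (g + j * msh r N M) (g + j * msh r N M) +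
      (r + (i * msh r N M - j * msh r N M))) →
    (∀ i ≤ M, ∀ j ≤ M, ∀ k ≤ l, bet Pc cs k (g + j * msh r N M) (g + j * msh r N M) +
      (r + (i * msh r N M - j * msh r N M)) - θ * msh r N M ≤ b i j k) →
    GnN2 (fun k w => bet Pc cs k w w) l g r aT wT β → 0 < K₁ →
    Bas S (fun J F A => ∃ B : F.Ω → Prop, Sub B A ∧ Pe F.p A ≤ K₁ * Pe F.p B ∧
      Chn cs (l + 1) (fun _ => DT) aT wT eT β J F B) →
    ∃ C : ℝ, 1 ≤ C ∧ Bas S fun J F A => ∀ (D : GDat F) (sh : ℕ → ℕ) (lo hi : ℕ → ℕ → ℝ)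
      (e₀ : ℕ → ℕ) (g₀ : ℕ → ℕ → ℕ) (G₀ : ℕ → PtT F → ℕ → MvPolynomial (Option (Fin m)) ℝ)
      (H₀ : ℕ → LnT F → ℕ → MvPolynomial (Option (Fin m)) ℝ),
      D.Ok cs (n₀ + 1) K₀ K' s₁ sh (up (g + r) J) (up g J) (up (msh r N M) J) M
        (fun i j => ⌊e i j * J⌋₊) (fun i j k => ⌊b i j k * J⌋₊) A →
      BalG D.G D.H cs (n₀ + 1) K₀ M (up g J) (up (msh r N M) J) lo hi e₀ g₀ G₀ H₀ A →
      (∀ j ≤ M, ∀ k ≤ l, lo j k = (bet Pc cs k (g + j * msh r N M) (g + j * msh r N M) -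
        θ * msh r N M) * J ∧ hi j k = bet Pc cs k (g + j * msh r N M) (g + j * msh r N M) * J) →
      ∃ (B : F.Ω → Prop) (UD : Pt2 F → PN) (UL : Ln2 F × ℕ → PN) (pr : ℕ), Sub B A ∧
        Pe F.p A ≤ C * Pe F.p B ∧
        (∀ i ≤ M, ∀ j ≤ M, ⌊(bet Pc cs l (g + j * msh r N M) (g + j * msh r N M) +
          (r + (i * msh r N M - j * msh r N M))) * J⌋₊ + ⌊r / 32 * J⌋₊ ≤ pr) ∧
        CoL D cs l K₂ (up (g + r) J) (up g J) (up (msh r N M) J) (up (16 * (θ * msh r N M)) J) M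
          S₂ (fun i j k => ⌊b i j k * J⌋₊) pr UD UL B := by
  classical
  obtain ⟨Db, C₀, hC₀, hbal⟩ := bal_lg m n₀ l hl hc hc1
  obtain ⟨T, hT⟩ : ∃ T, T = 1 / c := ⟨_, rfl⟩
  have hT0 : 0 < T := by rw [hT]; positivity
  obtain ⟨V, hV⟩ := exists_nat_ge (5 * T + 2)
  obtain ⟨Wc, hWc⟩ := exists_nat_ge (T + 3)
  obtain ⟨Cy, κ, N', Kn, Zc, S₂, hκ, hCyS, hfam⟩ := stg_fam V K₀ (max K₀ Db) DT (n₀ + 1) K' s₁ l Wc
    (by omega) (le_max_left _ _) hK'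
  obtain ⟨Cb, hCb⟩ : ∃ Cb : ℝ, Cb = (((V + 5) * Cy + Zc + S₂ + 8 : ℕ) : ℝ) := ⟨_, rfl⟩
  have hCb8 : 8 ≤ Cb := by
    rw [hCb]
    exact_mod_cast (by omega : 8 ≤ (V + 5) * Cy + Zc + S₂ + 8)
  have hCyb : (((V + 5) * Cy : ℕ) : ℝ) ≤ Cb := by
    rw [hCb]
    exact_mod_cast (by omega : (V + 5) * Cy ≤ (V + 5) * Cy + Zc + S₂ + 8)
  have hCyb1 : (Cy : ℝ) ≤ Cb := by
    refine le_trans ?_ hCyb
    exact_mod_cast Nat.le_mul_of_pos_left Cy (by omega : 0 < V + 5)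
  have hZb : (Zc : ℝ) ≤ Cb := by
    rw [hCb]
    exact_mod_cast (by omega : Zc ≤ (V + 5) * Cy + Zc + S₂ + 8)
  have hSb : (S₂ : ℝ) ≤ Cb := by
    rw [hCb]
    exact_mod_cast (by omega : S₂ ≤ (V + 5) * Cy + Zc + S₂ + 8)
  obtain ⟨C₁, hC₁⟩ : ∃ C₁ : ℝ, C₁ = 16 * C₀ + 4 / c + 4 / c ^ 2 := ⟨_, rfl⟩
  have hc4 : 0 < 4 / c := by positivity
  have hcc4 : 0 < 4 / c ^ 2 := by positivity
  refine ⟨max (max K₀ Db) DT, S₂, C₁, 64 * ((T + 2) * (8 * Cb)), by rw [hC₁]; linarith,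
    by nlinarith, ?_⟩
  intro S Pc PW θ' cs Pt W sg g r hne hP hPW hS hinj hPt hI hr hCr hrg N M θ ε Sl b e aT wT eT K₁ β
    hN hθ hθ1 hε hεθ haff hSl2 hSls hsrt hdia hbup hblo hgn hK₁ hchn
  have hinj' : Set.InjOn cs (Set.Iio (n₀ + 1)) := fun x hx y hy hxy => hinj x hx y hy hxy
  -- the scale is small
  have hCr0 : C₀ * r ≤ 1 := by
    have h1 : 0 ≤ (15 * C₀ + 4 / c + 4 / c ^ 2) * r := by positivity
    rw [hC₁] at hCr
    linarith
  have hrc : r ≤ c / 4 := by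
    have h1 : 4 / c * r ≤ 1 := by
      have h2 : 0 ≤ (16 * C₀ + 4 / c ^ 2) * r := by positivity
      rw [hC₁] at hCr
      linarith
    rw [div_mul_eq_mul_div, div_le_iff₀ hc] at h1
    linarith
  have hrc2 : r ≤ c ^ 2 / 4 := by
    have h1 : 4 / c ^ 2 * r ≤ 1 := by
      have h2 : 0 ≤ (16 * C₀ + 4 / c) * r := by positivity
      rw [hC₁] at hCr
      linarith
    rw [div_mul_eq_mul_div, div_le_iff₀ (by positivity)] at h1
    linarith
  have hTr : T * r ≤ c / 4 := by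
    rw [hT, one_div, inv_mul_le_iff₀ hc]
    linarith
  -- the mesh
  have hN0 : (0 : ℝ) < N := by nlinarith
  have hN1 : 1 ≤ N := by exact_mod_cast hN0
  obtain ⟨ζ, hζ⟩ : ∃ ζ, ζ = msh r N M := ⟨_, rfl⟩
  have hζ0 : 0 < ζ := by rw [hζ]; exact msh_pos hr hN1
  have e1 : N * ((M + 4) * ζ) = r := by rw [hζ]; exact msh_mul hN1
  rw [← hζ] at hbup hblo ⊢
  obtain ⟨δ, hδ⟩ : ∃ δ, δ = θ * ζ := ⟨_, rfl⟩
  have hδ0 : 0 < δ := by rw [hδ]; positivity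
  rw [← hδ] at hblo ⊢
  have hζδ : 16 * δ ≤ ζ := by
    have := mul_le_mul_of_nonneg_right hθ1 hζ0.le
    rw [hδ]
    linarith
  have hM0 : (0 : ℝ) ≤ M := Nat.cast_nonneg M
  have hbig : (T + 2) * ((M + 8 * Cb) * ζ) ≤ r / 64 := by
    have h1 : ((M : ℝ) + 8 * Cb) ≤ (M + 4) * (8 * Cb) := by nlinarith
    have h2 : (T + 2) * ((M + 8 * Cb) * ζ) ≤ (T + 2) * ((M + 4) * (8 * Cb) * ζ) :=
      mul_le_mul_of_nonneg_left (mul_le_mul_of_nonneg_right h1 hζ0.le) (by linarith)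
    have h3 : 64 * ((T + 2) * (8 * Cb)) * ((M + 4) * ζ) ≤ N * ((M + 4) * ζ) :=
      mul_le_mul_of_nonneg_right hN (by positivity)
    rw [e1] at h3
    linarith
  have hεr : C₁ * (ε * r) ≤ δ := by
    have h1 : C₁ * (ε * (N * (M + 4))) * ζ ≤ θ * ζ := mul_le_mul_of_nonneg_right hεθ hζ0.le
    have h2 : C₁ * (ε * (N * (M + 4))) * ζ = C₁ * (ε * (N * ((M + 4) * ζ))) := by ring
    rw [h2, e1, ← hδ] at h1
    exact h1
  have hεr0 : 0 ≤ ε * r := by positivity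
  have hεr1 : 16 * (C₀ * (ε * r)) ≤ δ := by
    have h1 : 0 ≤ (4 / c + 4 / c ^ 2) * (ε * r) := by positivity
    rw [hC₁] at hεr
    linarith
  have hεr2 : ε * r ≤ δ / 16 := by nlinarith
  have hCζr : 1024 * (Cb * ζ) ≤ r := by
    have h1 : (T + 2) * ((M + 8 * Cb) * ζ) = T * ((M + 8 * Cb) * ζ) + 2 * (M * ζ) +
      16 * (Cb * ζ) := by ring
    have h2 : 0 ≤ T * ((M + 8 * Cb) * ζ) := by positivity
    have h3 : 0 ≤ M * ζ := by positivity
    linarith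
  have hδr : δ ≤ r := by nlinarith
  -- the diagonals
  obtain ⟨Dg, hDg⟩ : ∃ Dg : ℕ → ℝ → ℝ, Dg = fun k w => bet Pc cs k w w := ⟨_, rfl⟩
  have hDe : ∀ k w, bet Pc cs k w w = Dg k w := fun k w => by rw [hDg]
  have hlv : ∀ k ≤ l, ∀ w, lvN Pc cs n₀ Pt k w w = Dg k w := fun k hk w => by
    unfold lvN
    rw [if_pos (by omega), hDe]
  have hg0 := hI.g0
  have hg1 := hI.g1
  have hgp : 0 < g := by linarith
  have hDup : ∀ k ≤ l, ∀ w, 0 < w → w ≤ g + 8 * r → Dg k w ≤ sg := fun k hk w h0 h1 => by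
    rw [← hDe]
    exact hI.bd k (by omega) w h0 h1
  have hsg := hI.sg1
  have hslp : ∀ k ≤ l, ∀ w w', g ≤ w → w ≤ w' → w' ≤ g + 3 * r → Dg k w + (w' - w) ≤ Dg k w' := by
    intro k hk w w' h1 h2 h3
    have hL := hP.law ((List.range k).map cs, cs k)
    have h4 := hL.slope w w (w' - w) (by linarith) le_rfl (by linarith) (by linarith)
    rw [add_sub_cancel] at h4
    have h5 := hL.mono_w w' w w' (by linarith) h2 le_rfl (by linarith)
    have h6 := hDup k hk w' (by linarith) (by linarith)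
    have h7 : min 1 (Dg k w + (w' - w)) ≤ Dg k w' := by
      rw [← hDe, ← hDe]
      exact h4.trans h5
    rcases min_le_iff.1 h7 with h8 | h8
    · linarith
    · exact h8
  simp only [hDe] at hsrt hdia hbup hblo ⊢
  rw [← hDg] at hgn
  have hag := hgn.ag
  have harad := hgn.rad
  -- the number of the balls
  obtain ⟨nb, hnb⟩ : ∃ nb : ℕ, nb = ⌈(aT - g) / δ⌉₊ + 2 := ⟨_, rfl⟩
  have hnb1 : aT + 2 * δ ≤ g + nb * δ := by
    have h1 := Nat.le_ceil ((aT - g) / δ)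
    rw [div_le_iff₀ hδ0] at h1
    rw [hnb]
    push_cast
    linarith
  have hnb2 : nb * δ ≤ 27 / 64 * r + 4 * δ := by
    have h1 := Nat.ceil_lt_add_one (show 0 ≤ (aT - g) / δ from div_nonneg (by linarith) hδ0.le)
    have h2 := mul_lt_mul_of_pos_right h1 hδ0
    rw [add_mul, div_mul_cancel₀ _ hδ0.ne'] at h2
    rw [hnb]
    push_cast
    linarith
  have hSt : StN l M nb Dg Sl g r ζ δ T Cb aT b β :=
    { r0 := hr
      δ0 := hδ0
      ζδ := hζδ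
      gr := by linarith
      g1 := by linarith
      T0 := hT0.le
      C0 := hCb8
      big := hbig
      low := fun k hk => by
        rw [← hDe]
        exact hP.low _ g g hgp.le le_rfl (by linarith)
      aff := fun k hk w hw => by
        have h1 := (haff k (by omega)).2.2 w (hw.trans (by linarith))
        rw [hlv k hk, hlv k hk] at h1
        exact h1.trans hεr2
      slp := fun k hk w w' h1 h2 h3 => hslp k hk w w' h1 h2 (by linarith)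
      Sl0 := fun k hk => ⟨(haff k (by omega)).1, by
        have h1 := (haff k (by omega)).2.1
        rw [hT, le_div_iff₀ hc]
        linarith⟩
      Sl2 := hSl2
      Sls := hSls
      srt := hsrt
      bup := hbup
      blo := hblo
      nb1 := hnb1
      nb2 := hnb2
      ag := hag
      βlo := hgn.lo
      βup := hgn.up
      βgn := hgn.gn }
  obtain ⟨J₁, hJ₁⟩ := stg_num (Cy := Cy) (Wc := Wc) (Zc := Zc) (S := S₂) hSt hCyb1 hZb hSb hWc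
  -- the charts of the balls
  obtain ⟨zz, hzz⟩ : ∃ zz : ℕ → ℕ → ℝ, zz = fun (j s : ℕ) => g + j * ζ + (s + 1 : ℕ) * δ := ⟨_, rfl⟩
  have hzz' : ∀ j s : ℕ, g + j * ζ + (s + 1 : ℕ) * δ = zz j s := fun j s => by rw [hzz]
  have hzr : ∀ j ≤ M, ∀ s < nb, g ≤ zz j s ∧ zz j s ≤ g + r / 2 + r / 16 := by
    intro j hj s hs
    obtain ⟨h1, h2, h3⟩ := hSt.pt (s := s + 1) hj hs
    rw [hzz'] at h2 h3
    exact ⟨h1.trans h2, h3⟩
  simp only [hzz'] at hJ₁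
  have hx2 : ∀ J : ℕ, (up (16 * δ) J : ℝ) ≤ 16 * δ * J + 1 := fun J =>
    up_le (show 0 ≤ 16 * δ by positivity) J
  obtain ⟨J₂, hJ₂⟩ := exists_nat_ge ((M + nb + 1 + 1 : ℕ) / (r / 4) : ℝ)
  have hballs : Lg S fun J F A => ∀ js ∈ (range (M + 1)) ×ˢ (range nb), BlQ cs (n₀ + 1) Db l
      (fun k => Dg k (zz js.1 js.2)) δ r
      (fun J => rdS (up g J) (up ζ J) (up δ J) (up (16 * δ) J) js.1 (js.2 + 1)) J F A := by
    refine Lg.all _ (fun js _ J F => BlQ.her _ _ _ _ _ _ _ _ J F) fun js hjs => ?_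
    rw [Finset.mem_product, mem_range, mem_range] at hjs
    obtain ⟨h1, h2⟩ := hzr js.1 (by omega) js.2 hjs.2
    have h3 := hbal hne hP hS hinj' hPt hI hr hCr0 (ε := ε) (δ := δ) hε hδ0
      (by nlinarith) hδr hrc
      (fun k hk => ⟨_, Sl k, (haff k hk).2.1, (haff k hk).2.2⟩) h1 (by linarith)
      (fun J => rdS (up g J) (up ζ J) (up δ J) (up (16 * δ) J) js.1 (js.2 + 1)) (max J₁ J₂)
      (fun J hJ => by
        obtain ⟨k1, -⟩ := hJ₁ J ((le_max_left _ _).trans hJ)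
        obtain ⟨k2, k3⟩ := k1 js.1 (by omega) js.2 hjs.2
        have k4 : (0 : ℝ) ≤ up (16 * δ) J := Nat.cast_nonneg _
        have k5 : ((M + nb + 1 + 1 : ℕ) : ℝ) ≤ J * (r / 4) := by
          have := hJ₂.trans (show (J₂ : ℝ) ≤ J by exact_mod_cast (le_max_right _ _).trans hJ)
          rwa [div_le_iff₀ (by positivity)] at this
        refine ⟨by linarith, ?_⟩
        have k6 := hx2 J
        have k7 : 16 * δ * (J : ℝ) ≤ r / 4 * J := by
          refine mul_le_mul_of_nonneg_right ?_ (Nat.cast_nonneg J)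
          nlinarith
        push_cast at k3 k5 ⊢
        linarith)
    refine h3.mono 0 fun J _ F A h4 => ?_
    have e2 : (fun k => bet Pc cs k (zz js.1 js.2) (zz js.1 js.2)) =
      fun k => Dg k (zz js.1 js.2) := by funext k; exact hDe _ _
    rw [e2] at h4
    exact h4
  have hT' : Lg S fun J F B => Chn cs (l + 1) (fun _ => DT) aT wT eT β J F B :=
    ⟨max 1 K₁, le_max_left _ _, Bas.mono 0 hchn fun J _ F A ⟨B, h1, h2, h3⟩ =>
      ⟨B, h1, h2.trans (mul_le_mul_of_nonneg_right (le_max_right _ _) (Pe_nonneg F.isLaw _)), h3⟩⟩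
  obtain ⟨CL, hCL, hLg⟩ := Lg.and (fun J F A B hB h1 => fun js hjs =>
    BlQ.her _ _ _ _ _ _ _ _ J F A B hB (h1 js hjs)) hballs hT'
  have hCL0 : 0 < CL := by linarith
  -- no better labels
  obtain ⟨Nb, hNb⟩ : ∃ Nb : ℕ, Nb = 2 ^ ((l + 1) * ((M + 1) * (nb + 1))) * N' := ⟨_, rfl⟩
  obtain ⟨η, hη⟩ : ∃ η : ℝ, η = 1 / (CL * (Nb + 1)) := ⟨_, rfl⟩
  have hη0 : 0 < η := by rw [hη]; positivity
  have hηK : η * (CL * (Nb + 1)) = 1 := by
    rw [hη]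
    field_simp
  have hno : Bas S fun J F A => ∀ k < l, ∀ j < M + 1, ∀ s < nb, ∀ B : F.Ω → Prop, Sub B A →
      η * Pe F.p A ≤ Pe F.p B → ∀ rd μ : ℕ, zz j s * J + up (16 * δ) J ≤ rd →
      (rd : ℝ) ≤ zz j s * J + up (16 * δ) J + (M + nb + 1 : ℕ) → up (16 * δ) J ≤ μ →
      μ ≤ Cy * up (16 * δ) J → ∀ (e' : ℕ) (g' : ℕ → ℕ),
      (∀ k' < k, (g' k' : ℝ) ≤ Dg k' (zz j s) * J + 4 * μ) →
      (Dg k (zz j s) - 16 * δ / 8) * J + V * μ ≤ g' k → g' k ≤ J →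
      ¬ ChN F cs (k + 1) (fun _ => Kn) (rd + 4 * μ) (rd + 4 * μ) e' g' B := by
    refine Bas.all l fun k hk => Bas.all (M + 1) fun j hj => Bas.all nb fun s hs => ?_
    obtain ⟨h1, h2⟩ := hzr j (by omega) s hs
    have hSk : 0 ≤ Sl k := (haff k (by omega)).1
    have hSkT : Sl k ≤ T := (hSt.Sl0 k hk.le).2
    refine Pool.LBK.Bas.ev (no_dia hPW (c := cs) (k := k) (V := V) (Cy := Cy) (Kn := Kn)
      (C' := M + nb + 1) (z := zz j s) (ξ := 16 * δ) (h := r / 2) (Dk := Dg k (zz j s))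
      (Sk := Sl k) (Dk' := fun k' => Dg k' (zz j s)) (by linarith) (by positivity) (by linarith)
      ?_ (fun w h3 h4 => ?_) hSk (by linarith) (fun k' hk' w h3 h4 => ?_) ?_
      (fun k' hk' => ⟨?_, ?_⟩)) hη0
    · have h3 : (4 * (Cy : ℝ) + 8) * (16 * δ) ≤ (5 * Cb) * ζ :=
        mul_le_mul (by linarith) hζδ (by positivity) (by positivity)
      linarith
    · have h5 := hdia k hk w (by rw [abs_le]; constructor <;> linarith)
      have h6 := (haff k (by omega)).2.2 w (by rw [abs_le]; constructor <;> linarith)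
      have h7 := (haff k (by omega)).2.2 (zz j s) (by rw [abs_le]; constructor <;> linarith)
      rw [hlv k hk.le, hlv k hk.le] at h6 h7
      have h8 := (abs_le.1 h6).2
      have h9 := (abs_le.1 h7).1
      have h10 : Sl k * (w - g) = Sl k * (zz j s - g) + Sl k * (w - zz j s) := by ring
      linarith
    · rw [hDe]
      exact hslp k' (by omega) _ _ h1 h3 (by linarith)
    · have h3 := hDup k hk.le (zz j s) (by linarith) (by linarith)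
      have h4 : Sl k * (r / 2) ≤ T * (r / 2) := mul_le_mul_of_nonneg_right hSkT (by linarith)
      linarith
    · have h3 := hslp k' (by omega) g (zz j s) le_rfl h1 (by linarith)
      have h4 := hSt.low k' (by omega)
      linarith
    · have h3 := hDup k' (by omega) (zz j s) (by linarith) (by linarith)
      linarith
  obtain ⟨hpos, htm⟩ := hS
  have hp : Bas S (fun _ F A => 0 < Pe F.p A) := ⟨1, one_pos, 0, fun J _ F A hA => hpos 1 J F A hA⟩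
  obtain ⟨J₃, hJ₃⟩ := x_num (ζ := 16 * δ) (by positivity) (κ + nb)
  obtain ⟨J₄, hJ₄⟩ := exists_nat_ge (Cb / r : ℝ)
  refine ⟨max 1 (CL * 2 ^ ((l + 1) * ((M + 1) * (nb + 1)))), le_max_left _ _, ?_⟩
  refine Bas.mono (max (max J₁ J₄) (max J₃ 1)) (Bas.and (Bas.and hLg hp) (Bas.and hno
    (Pool.LBK.Bas.ev (htm (16 * δ / 2) (by positivity)) hη0))) ?_
  rintro J hJ F A ⟨⟨⟨B, hBA, hPB, hbl, T₁, TH, hTc⟩, hA⟩, hno, htm⟩ D sh lo hi e₀ g₀ G₀ H₀ hD hBal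
    hlh
  obtain ⟨c1, c2, c3, c4, c5, c6, c7⟩ :=
    hJ₁ J (((le_max_left _ _).trans (le_max_left _ _)).trans hJ)
  obtain ⟨d1, d2⟩ := hJ₃ J (((le_max_left _ _).trans (le_max_right _ _)).trans hJ)
  have hJ1 : 1 ≤ J := ((le_max_right _ _).trans (le_max_right _ _)).trans hJ
  have hJ0 : (0 : ℝ) < J := by exact_mod_cast hJ1
  have hCbJ : Cb ≤ r * J := by
    have h1 : (J₄ : ℝ) ≤ J := by
      exact_mod_cast ((le_max_right _ _).trans (le_max_left _ _)).trans hJ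
    have h2 := hJ₄.trans h1
    rwa [div_le_iff₀ hr, mul_comm] at h2
  have hB0 : 0 < Pe F.p B := by
    by_contra h
    push Not at h
    have := mul_nonpos_of_nonneg_of_nonpos hCL0.le h
    linarith
  have hκB : ∀ B' : F.Ω → Prop, Sub B' B → Pe F.p B ≤ Nb * Pe F.p B' →
      η * Pe F.p A ≤ Pe F.p B' := by
    intro B' _ h2
    have hB'0 : 0 ≤ Pe F.p B' := Pe_nonneg F.isLaw _
    have h3 : Pe F.p A ≤ CL * (Nb + 1) * Pe F.p B' := by
      calc Pe F.p A ≤ CL * Pe F.p B := hPB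
        _ ≤ CL * (Nb * Pe F.p B') := mul_le_mul_of_nonneg_left h2 hCL0.le
        _ ≤ CL * ((Nb + 1) * Pe F.p B') := by
            refine mul_le_mul_of_nonneg_left ?_ hCL0.le
            linarith
        _ = _ := by ring
    calc η * Pe F.p A ≤ η * (CL * (Nb + 1) * Pe F.p B') := mul_le_mul_of_nonneg_left h3 hη0.le
      _ = η * (CL * (Nb + 1)) * Pe F.p B' := by ring
      _ = Pe F.p B' := by rw [hηK, one_mul]
  -- the charts
  have hbl' : ∀ j s : ℕ, ∃ (e' : ℕ) (g' : ℕ → ℕ)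
      (G : PtT F → ℕ → MvPolynomial (Option (Fin m)) ℝ)
      (H : LnT F → ℕ → MvPolynomial (Option (Fin m)) ℝ), j ≤ M → s < nb →
      ChOK F cs (n₀ + 1) (fun _ => Db) (rdS (up g J) (up ζ J) (up δ J) (up (16 * δ) J) j (s + 1))
        (rdS (up g J) (up ζ J) (up δ J) (up (16 * δ) J) j (s + 1)) e' g' B G H ∧
      (∀ k ≤ l, (Dg k (zz j s) - δ / 2) * J ≤ g' k ∧ (g' k : ℝ) ≤ Dg k (zz j s) * J) ∧
      ∀ k ≤ l, Dg k (zz j s) * J + e' + r / 4 * J ≤ J := by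
    intro j s
    by_cases hjs : j ≤ M ∧ s < nb
    · obtain ⟨e', g', G, H, k1, k2, k3⟩ := hbl (j, s) (by
        rw [Finset.mem_product, mem_range, mem_range]
        exact ⟨Nat.lt_succ_of_le hjs.1, hjs.2⟩)
      exact ⟨e', g', G, H, fun _ _ => ⟨k1, k2, k3⟩⟩
    · exact ⟨0, fun _ => 0, fun _ _ => 0, fun _ _ => 0, fun h1 h2 => absurd ⟨h1, h2⟩ hjs⟩
  choose eq gq Gq Hq hq using hbl'
  obtain ⟨gB, hgB0, hgBs⟩ : ∃ gB : ℕ → ℕ → ℕ → ℕ, (∀ j, gB j 0 = g₀ j) ∧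
      ∀ j s, gB j (s + 1) = gq j s :=
    ⟨fun j s => Nat.rec (g₀ j) (fun s' _ => gq j s') s, fun _ => rfl, fun _ _ => rfl⟩
  obtain ⟨eB, heB0, heBs⟩ : ∃ eB : ℕ → ℕ → ℕ, (∀ j, eB j 0 = e₀ j) ∧
      ∀ j s, eB j (s + 1) = eq j s :=
    ⟨fun j s => Nat.rec (e₀ j) (fun s' _ => eq j s') s, fun _ => rfl, fun _ _ => rfl⟩
  obtain ⟨Bq, hBq0, hBqs⟩ : ∃ Bq : ℕ → ℕ → PtT F → ℕ → MvPolynomial (Option (Fin m)) ℝ,
      (∀ j, Bq j 0 = G₀ j) ∧ ∀ j s, Bq j (s + 1) = Gq j s :=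
    ⟨fun j s => Nat.rec (G₀ j) (fun s' _ => Gq j s') s, fun _ => rfl, fun _ _ => rfl⟩
  obtain ⟨HB, hHB0, hHBs⟩ : ∃ HB : ℕ → ℕ → LnT F → ℕ → MvPolynomial (Option (Fin m)) ℝ,
      (∀ j, HB j 0 = H₀ j) ∧ ∀ j s, HB j (s + 1) = Hq j s :=
    ⟨fun j s => Nat.rec (H₀ j) (fun s' _ => Hq j s') s, fun _ => rfl, fun _ _ => rfl⟩
  obtain ⟨rd, hrd⟩ : ∃ rd, rd = rdS (up g J) (up ζ J) (up δ J) (up (16 * δ) J) := ⟨_, rfl⟩
  rw [← hrd] at c1 c2 c7 hq
  have hrd0 : ∀ j, rd j 0 = up g J + j * up ζ J := fun j => by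
    rw [hrd]
    unfold rdS
    rw [if_pos rfl]
    omega
  have hz0 : ∀ j : ℕ, g + j * ζ + (0 : ℕ) * δ = g + j * ζ := fun j => by
    rw [Nat.cast_zero]
    ring
  have hBchn : ∀ j ≤ M, ∀ s ≤ nb, ChOK F cs (l + 1) (fun _ => max K₀ Db) (rd j s) (rd j s)
      (eB j s) (gB j s) B (Bq j s) (HB j s) := by
    intro j hj s hs
    rcases Nat.eq_zero_or_pos s with rfl | hs0
    · rw [hrd0, hgB0, heB0, hBq0, hHB0]
      exact ((hBal.ball j hj).sub hBA).mono (by omega) (fun _ => le_max_left _ _) le_rfl le_rfl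
    · obtain ⟨s, rfl⟩ : ∃ s', s = s' + 1 := ⟨s - 1, by omega⟩
      rw [hgBs, heBs, hBqs, hHBs]
      exact (hq j s hj (by omega)).1.mono (by omega) (fun _ => le_max_right _ _) le_rfl le_rfl
  have hδJ : 0 ≤ δ * (J : ℝ) := by positivity
  obtain ⟨n1, n2, n3⟩ := c7 gB eB (fun j hj s hs k hk => by
    rcases Nat.eq_zero_or_pos s with rfl | hs0
    · rw [hz0, hgB0]
      have h1 := hBal.sd j hj k (by omega)
      rw [(hlh j hj k hk).1, (hlh j hj k hk).2] at h1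
      exact h1
    · obtain ⟨s, rfl⟩ : ∃ s', s = s' + 1 := ⟨s - 1, by omega⟩
      rw [hgBs, hzz']
      have h1 := (hq j s hj (by omega)).2.1 k hk
      refine ⟨le_trans ?_ h1.1, h1.2⟩
      refine mul_le_mul_of_nonneg_right ?_ hJ0.le
      linarith) (fun j hj s hs k hk => by
    rw [hgBs, ]
    exact ((hq j s hj hs).2.1 k hk).1) (fun j hj s hs k hk => by
    rw [heBs, ]
    exact (hq j s hj hs).2.2 k hk)
  have hnb1' : 1 ≤ nb := by rw [hnb]; omega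
  have htmN : TmN F Nb ⌈16 * δ / 2 * J⌉₊ B :=
    Pool.CHT.tmN_of (fun B' h1 h2 h3 => htm B' h1 h2 h3) (Nat.le_ceil _) hBA hB0 hκB
  have hupg : up g J ≤ J := by
    have h1 : ((up g J : ℕ) : ℝ) ≤ (J : ℝ) := by
      have h2 := up_le hgp.le J
      have h3 : (g + r) * J ≤ 1 * J := mul_le_mul_of_nonneg_right (by linarith) hJ0.le
      linarith
    exact_mod_cast h1
  obtain ⟨B', UD, UL, k1, k2, k3⟩ := hfam (a₀ := up (g + r) J) (w₀ := up g J) (z := up ζ J)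
    (x := up (16 * δ) J) (e₀ := ⌈16 * δ / 2 * J⌉₊) (y₀ := ⌊r / 16 * J⌋₊) (aT := ⌊aT * J⌋₊)
    (wT := ⌊wT * J⌋₊) (eT := ⌊eT * J⌋₊) (e := fun i j => ⌊e i j * J⌋₊)
    (g := fun i j k => ⌊b i j k * J⌋₊) (gB := gB) (rd := rd) (eB := eB)
    (gT := fun k => ⌊β k * J⌋₊) (B := B) (Bq := Bq) (Hq := HB) (T := T₁) (TH := TH) (nb := nb)
    (ln := nb) (hD.sub hBA) hinj hupg
    (fun i hi j hj y k => ⟨_, by
      rw [hBal.eqG i hi j hj, hBq0]
      rfl⟩) (n1.blD hBchn) n2 hnb1' c2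
    (by
      refine Nat.floor_le_of_le (le_trans ?_ (up_ge g J))
      exact mul_le_mul_of_nonneg_right hgn.win hJ0.le)
    hTc (by rw [← hNb]; exact htmN) d1 (by omega) (Nat.lt_two_pow_self).le (by omega)
    (fun j hj k hk => ⟨c3 k hk, n3 j hj k hk⟩) (fun i hi j hj => c4 i hi j hj) c5
    (fun j hj s hs k hk μ hμ1 hμ2 B₂ hB₂ hPB₂ e' g' q1 q2 q3 => by
      obtain ⟨r1, r2⟩ := c1 j hj s hs
      have hb1 := fun k' hk' => (hq j s hj hs).2.1 k' hk'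
      rw [hgBs] at q2 q3
      rw [hgBs] at q1
      refine hno k hk j (by omega) s hs B₂ (fun ω hω => hBA ω (hB₂ ω hω)) (hκB B₂ hB₂ (by
        rw [hNb]
        exact hPB₂)) (rd j (s + 1)) μ r1 r2 hμ1 hμ2 e' g' (fun k' hk' => ?_) ?_ ?_
      · have h1 : (g' k' : ℝ) ≤ gq j s k' + 4 * μ := by exact_mod_cast q1 k' hk'
        have h2 := (hb1 k' (by omega)).2
        linarith
      · have h1 : (gq j s k : ℝ) + V * μ ≤ g' k := by exact_mod_cast q2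
        have h2 := (hb1 k hk.le).1
        have h3 : (Dg k (zz j s) - 16 * δ / 8) * (J : ℝ) ≤ (Dg k (zz j s) - δ / 2) * J :=
          mul_le_mul_of_nonneg_right (by linarith) hJ0.le
        linarith
      · have h1 : (g' k : ℝ) ≤ gq j s k + (V + 4) * μ := by exact_mod_cast q3
        have h2 := (hb1 k hk.le).2
        obtain ⟨z1, z2⟩ := hzr j hj s hs
        have h3 := hDup k hk.le (zz j s) (by linarith) (by linarith)
        have h4 : ((V : ℝ) + 4) * μ ≤ ((V + 5) * Cy : ℕ) * (16 * δ * J + 1) := by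
          have h5 : (μ : ℝ) ≤ Cy * up (16 * δ) J := by exact_mod_cast hμ2
          have h6 : (Cy : ℝ) * up (16 * δ) J ≤ Cy * (16 * δ * J + 1) :=
            mul_le_mul_of_nonneg_left (hx2 J) (Nat.cast_nonneg Cy)
          have h7 : ((V : ℝ) + 4) * μ ≤ (V + 4) * (Cy * (16 * δ * J + 1)) :=
            mul_le_mul_of_nonneg_left (h5.trans h6) (by positivity)
          have h8 : (0 : ℝ) ≤ Cy * (16 * δ * J + 1) := by positivity
          push_cast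
          linarith
        have h5 : (((V + 5) * Cy : ℕ) : ℝ) * (16 * δ * J + 1) ≤ Cb * (ζ * J + 1) := by
          have h6 : 16 * δ * (J : ℝ) ≤ ζ * J := mul_le_mul_of_nonneg_right hζδ hJ0.le
          exact mul_le_mul hCyb (by linarith) (by positivity) (by linarith)
        have h6 : Cb * ζ * J ≤ r * J := mul_le_mul_of_nonneg_right (by
          have : 0 ≤ Cb * ζ := by positivity
          linarith) hJ0.le
        have h7 : (Dg k (zz j s) + 2 * r) * (J : ℝ) ≤ 1 * J :=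
          mul_le_mul_of_nonneg_right (by linarith) hJ0.le
        have h8 : (g' k : ℝ) ≤ (J : ℝ) := by linarith
        exact_mod_cast h8)
  refine ⟨B', UD, UL, _, fun ω hω => hBA ω (k1 ω hω), ?_, fun i hi j hj => ?_, k3⟩
  · have hB'0 : 0 ≤ Pe F.p B' := Pe_nonneg F.isLaw _
    calc Pe F.p A ≤ CL * Pe F.p B := hPB
      _ ≤ CL * (2 ^ ((l + 1) * ((M + 1) * (nb + 1))) * Pe F.p B') :=
          mul_le_mul_of_nonneg_left k2 hCL0.le
      _ = CL * 2 ^ ((l + 1) * ((M + 1) * (nb + 1))) * Pe F.p B' := by ring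
      _ ≤ _ := mul_le_mul_of_nonneg_right (le_max_right _ _) hB'0
  · have := c6 i hi j hj
    omega

end Pool.STG
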