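import Pool.Agent.H89.STG.Bas
import Pool.Agent.H78.TT.Vco

/-!
# Labels with gain of a static coordinate after a slower static coordinate

`vcoI_stg`: on the boxes of a kind there are labels with gain of the coordinate `l` on large events,
from a chain with gain at a small radius, if the coordinates before are not faster, their slopes are
at most two, and there are no better labels of these coordinates on the diagonal.
-/

set_option autoImplicit false

namespace Pool.PKG

open MeasureTheory Set Filter Topology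
open Pool.Agent.H49.Ent Pool.Agent.H32.Dense Pool.STK Pool.KA Pool.KSAT Pool.K2S Pool.PB
open Pool.GEN Pool.S6C Pool.STAT Pool.CHT Pool.GRW Pool.ONE Pool.STA
open Pool.LBT (LSys ThrOf)
open Pool.LEV (Law Lv)
open Pool.ALL (RateOf)
open Pool.TOP (TopS)
open Pool.RTS (iso Diag)
open Pool.STR (NumI CellD RowD NfB AffB Rle Nw)
open Pool.ISO (ChI lvN)
open Pool.CHB (chsysB)
open Pool.STAT.CLO Pool.MIC6
open Pool.P4 (NFc1)

variable {n : ℕ} {hn : 2 ≤ n} {S : PCl n} {P : ℝ → ℝ → ℝ} {rr : ℝ → ℝ}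
  {P' : ℕ → List (Fin n) × Fin n → ℝ → ℝ → ℝ} {Λ : Finset (Fin n) → Fin n → ℝ → ℝ → ℝ}
  {PB : ℕ → List (Fin n) × Fin n → ℝ → ℝ → ℝ}

/-- The levels of the order are the levels of the threshold. -/
theorem dgN_lv (o : Od n) (k : ℕ) (w : ℝ) :
    lvN (P' o.2) (cc hn o.1.1) (n - 1) P k w w = dgN hn P P' o k w := by
  unfold lvN dgN
  by_cases h1 : k < n - 1
  · rw [if_pos h1, if_pos h1]
    rfl
  · rw [if_neg h1, if_neg h1]

theorem dgN_bet (o : Od n) {k : ℕ} (hk : k < n - 1) (w : ℝ) :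
    dgN hn P P' o k w = bet (P' o.2) (cc hn o.1.1) k w w := by
  unfold dgN
  rw [if_pos hk]
  rfl

/-- **Labels with gain** of a coordinate after slower coordinates. -/
theorem vcoI_stg (H : PkT hn S P rr P' Λ PB) {hTop : TopS n} {hF : FZX (n - 1)}
    {ρ' : ℝ → ℝ} {hρ : Rle rr ρ'} {p : ((H.nk hTop hF).chg hρ H.up).Par} (hpI : AdP H p)
    {ι : Type} {kd : p.cell.α → ι} {c β h' M : ℝ} {x : ι} (hc : 0 < c)
    {I : ℝ → BS p.cell → Prop} (hI : MonoI I) (hIs : ∀ ε q, I ε q → IsK p.cell kd c β h' M x ε q)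
    {PW : ℕ → List (Fin n) × Fin n → ℝ → ℝ → ℝ}
    (hPW : ∀ j, ThrOf (chsysB n none (P' j)) S (PW j)) {l : ℕ} (hl : l < n - 1)
    (hsl2 : ∀ ε q, I ε q → ∀ k < l, slN hn P P' (show Od n from q.k.2) k q.g ≤ 2)
    (hsls : ∀ ε q, I ε q → ∀ k ≤ l, ∀ k' < k,
      slN hn P P' (show Od n from q.k.2) k' q.g ≤ slN hn P P' (show Od n from q.k.2) k q.g)
    (hsrt : ∀ ε q, I ε q → ∀ k < n - 1, ∀ k' < k,
      dgN hn P P' (show Od n from q.k.2) k' q.g ≤ dgN hn P P' (show Od n from q.k.2) k q.g)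
    (hdia : ∀ k < l, ∀ ε' : ℝ, 0 < ε' → EvP I fun q =>
      DiaR hn P P' PW (show Od n from q.k.2) k q.g q.r (ε' * q.r))
    {DT : ℕ} (hgn : EvP I fun q => GnW2 hn S P P' (show Od n from q.k.2) DT l q.g q.r) :
    VcoI H p l I := by
  intro K K' s₁ sh hK hK'
  have hCh : ∀ ε q, I ε q → ∃ sg : ℝ, ChI S (P' (show Od n from q.k.2).2)
      (tht (show Od n from q.k.2).2) (cc hn (show Od n from q.k.2).1.1) (n - 1) P
      (Wgc P' (show Od n from q.k.2).2) sg c q.g q.r := fun ε q hq =>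
    hpI c (q.k.1, q.k.2) q.Q q.g q.r (hIs ε q hq).is.ad.2.2.2.2
  rcases lt_or_ge 1 c with hc1 | hc1
  · refine ⟨0, 0, fun M => ⟨0, fun N _ => ⟨1, one_pos, fun θ _ _ => ⟨1, one_pos, fun q hq => ?_⟩⟩⟩⟩
    obtain ⟨sg, h0⟩ := hCh _ _ hq
    have h1 := h0.g0
    have h2 := h0.g1
    exact absurd h1 (by linarith)
  obtain ⟨K₂, S₂, C₀, N₀, hC₀, hN₀, hbas⟩ := Pool.STG.stg_bas n (n - 1) l K DT K' s₁ hl hK' hc hc1
  refine ⟨K₂, S₂, fun M => ?_⟩
  obtain ⟨N₁, hN₁⟩ := exists_nat_ge N₀
  obtain ⟨C₁, hC₁⟩ : ∃ C₁, C₁ = C₀ + 4 / c := ⟨_, rfl⟩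
  have hc4 : 0 < 4 / c := by positivity
  have hεp : ∀ (N : ℕ) (θ : ℝ), 0 < θ →
      0 < min (θ / (C₀ * (N * (M + 4)) + 1)) (1 / C₁) := fun N θ hθ =>
    lt_min (by positivity) (by rw [hC₁]; positivity)
  have hdiaQ : EvQ I fun N θ q => 0 < θ → ∀ k < l, DiaR hn P P' PW (show Od n from q.k.2) k q.g q.r
      (min (θ / (C₀ * (N * (M + 4)) + 1)) (1 / C₁) * q.r) :=
    ⟨0, fun N _ => ⟨1, one_pos, fun θ hθ _ => (evP_lt hI l fun k hk =>
      hdia k hk _ (hεp N θ hθ)).mono fun _ hp _ => hp⟩⟩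
  refine ((hdiaQ.and hI (EvQ.of_evP fun _ => hgn)).and hI
    (EvQ.self I N₁ (θ₀ := 1 / 16) (by norm_num) hεp)).mono ?_
  rintro N θ q ⟨⟨hdq, hgq⟩, hN, hθ, hθ1, hq⟩ b e hnear
  replace hdq := hdq hθ
  obtain ⟨ε, hε⟩ : ∃ ε : ℝ, ε = min (θ / (C₀ * (N * (M + 4)) + 1)) (1 / C₁) := ⟨_, rfl⟩
  rw [← hε] at hdq hq
  have hε0 : 0 < ε := by rw [hε]; exact hεp N θ hθ
  have hqs := hIs _ _ hq
  have his := hqs.is
  have hr := his.r0
  have hrg := his.g0
  have hrg1 := his.g1
  obtain ⟨sg, hC⟩ := hCh _ _ hq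
  obtain ⟨o, ho⟩ : ∃ o : Od n, o = (show Od n from q.k.2) := ⟨_, rfl⟩
  have hs2 := hsl2 _ _ hq
  have hss := hsls _ _ hq
  have hst := hsrt _ _ hq
  -- the scale is small
  have hεC : C₀ * (ε * (N * (M + 4))) ≤ θ := by
    have h1 : ε ≤ θ / (C₀ * (N * (M + 4)) + 1) := by rw [hε]; exact min_le_left _ _
    rw [le_div_iff₀ (by positivity)] at h1
    linarith
  have hεC1 : C₁ * ε ≤ 1 := by
    have h1 : ε ≤ 1 / C₁ := by rw [hε]; exact min_le_right _ _
    rwa [le_div_iff₀ (by rw [hC₁]; positivity), mul_comm] at h1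
  have hε1 : ε ≤ 1 := by
    have h1 : 0 ≤ 4 / c * ε := by positivity
    have h2 : ε ≤ C₀ * ε := by nlinarith
    rw [hC₁] at hεC1
    linarith
  have hrC1 : C₁ * q.r ≤ 1 := by
    refine le_trans (mul_le_mul_of_nonneg_left his.rε ?_) hεC1
    rw [hC₁]
    positivity
  have hrC : C₀ * q.r ≤ 1 := by
    have h1 : 0 ≤ 4 / c * q.r := by positivity
    rw [hC₁] at hrC1
    linarith
  have hrc : q.r ≤ c / 4 := by
    have h1 : 4 / c * q.r ≤ 1 := by
      have h2 : 0 ≤ C₀ * q.r := by positivity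
      rw [hC₁] at hrC1
      linarith
    rw [div_mul_eq_mul_div, div_le_iff₀ hc] at h1
    linarith
  have hgp : 0 < q.g := by linarith
  -- the diagonals
  have haff : ∀ k ≤ n - 1, 0 ≤ slN hn P P' (show Od n from q.k.2) k q.g ∧
      c * slN hn P P' (show Od n from q.k.2) k q.g ≤ 1 ∧ ∀ w : ℝ, |w - q.g| ≤ 8 * q.r →
      |dgN hn P P' (show Od n from q.k.2) k w - dgN hn P P' (show Od n from q.k.2) k q.g -
        slN hn P P' (show Od n from q.k.2) k q.g * (w - q.g)| ≤ ε * q.r := by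
    intro k hk
    have e1 := kit_la H hqs K k
    rw [← e1]
    by_cases h1 : k < n - 1
    · have e2 : (kitN H p K).la q k = q.Sj (jxI n k) := KitS.la_base q h1
      have e3 : ∀ w, dgN hn P P' (show Od n from q.k.2) k w = p.cell.D q.k.2 (jxI n k) w := by
        intro w
        rw [← kit_dg H (K := K) q k]
        exact congrFun (KitS.dg_base q h1) w
      rw [e2]
      refine ⟨his.S0 _, his.cSj _, fun w hw => ?_⟩
      rw [e3, e3]
      exact his.dj (jxI n k) w hw
    · obtain rfl : k = n - 1 := by omega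
      have e2 : (kitN H p K).la q (n - 1) = q.S := KitS.la_tar q
      have e3 : ∀ w, dgN hn P P' (show Od n from q.k.2) (n - 1) w = P w w := by
        intro w
        unfold dgN
        rw [if_neg (lt_irrefl _)]
      rw [e2]
      refine ⟨?_, his.cS, fun w hw => ?_⟩
      · have h2 := (cls_hP H).gsl (w := q.g) (v := q.r) hgp.le hr.le (by linarith)
        have h3 := hC.bdN (q.g + q.r) (by linarith) (by linarith)
        have h4 := hC.sg1
        have h5 := (abs_le.1 (his.dgP (q.g + q.r) (by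
          rw [add_sub_cancel_left, abs_of_pos hr]
          linarith))).2
        have h6 := his.val
        have h7 : P q.g q.g + q.r ≤ P (q.g + q.r) (q.g + q.r) := by
          rcases min_le_iff.1 h2 with h8 | h8
          · linarith
          · exact h8
        have h8 : ε * q.r ≤ 1 * q.r := mul_le_mul_of_nonneg_right hε1 hr.le
        rw [add_sub_cancel_left] at h5
        by_contra h9
        push Not at h9
        have h10 := mul_neg_of_neg_of_pos h9 hr
        linarith
      · rw [e3, e3, his.val]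
        exact his.dgP w hw
  obtain ⟨aT, wT, eT, β', K₁, hK₁, hgn2, hchn⟩ := hgq
  have hdb : ∀ k < n - 1, ∀ w, dgN hn P P' (show Od n from q.k.2) k w =
      bet (P' (show Od n from q.k.2).2) (cc hn (show Od n from q.k.2).1.1) k w w :=
    fun k hk w => dgN_bet _ hk w
  have hL : ∀ k, (kitN H p K).kit.L q k = iso (dgN hn P P' (show Od n from q.k.2) k) := by
    intro k
    show iso ((kitN H p K).Dg q k) = _
    rw [kit_dg H q k]
  have hN0 : N₀ ≤ N := hN₁.trans (by exact_mod_cast hN)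
  have hN1 : 1 ≤ N := by
    have : (1 : ℝ) ≤ N := hN₀.trans hN0
    exact_mod_cast this
  have hN2 : (1 : ℝ) ≤ N := by exact_mod_cast hN1
  have hζ0 : 0 < msh q.r N M := msh_pos hr hN1
  have hM0 : (0 : ℝ) ≤ M := Nat.cast_nonneg M
  have hMζ : (M + 4) * msh q.r N M ≤ q.r := by
    have h1 : N * ((M + 4) * msh q.r N M) = q.r := msh_mul hN1
    have h2 : 0 ≤ (M + 4) * msh q.r N M := by positivity
    nlinarith
  have hjζ : ∀ j : ℕ, j ≤ M → 0 ≤ j * msh q.r N M ∧ j * msh q.r N M ≤ q.r := by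
    intro j hj
    have h1 : (j : ℝ) ≤ M := by exact_mod_cast hj
    have h2 := mul_le_mul_of_nonneg_right h1 hζ0.le
    refine ⟨by positivity, ?_⟩
    linarith
  obtain ⟨C, hC1, hB⟩ := hbas (S := S) (Pc := P' (show Od n from q.k.2).2)
    (PW := PW (show Od n from q.k.2).2) (θ' := tht (show Od n from q.k.2).2)
    (cs := cc hn (show Od n from q.k.2).1.1) (Pt := P) (sg := sg) (g := q.g) (r := q.r)
    H.ne (H.cht _) (hPW _) H.tmh (kit_inj H p K q.k) (H.tgs.law ()) hC hr hrC hrg (N := N) (M := M)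
    (θ := θ) (ε := ε) (Sl := fun k => slN hn P P' (show Od n from q.k.2) k q.g) (b := b) (e := e)
    (aT := aT) (wT := wT) (eT := eT) (K₁ := K₁) (β := β') hN0 hθ hθ1 hε0.le hεC
    (fun k hk => ⟨(haff k hk).1, (haff k hk).2.1, fun w hw => by
      rw [dgN_lv _ k, dgN_lv _ k]
      exact (haff k hk).2.2 w hw⟩) hs2 hss
    (fun k hk k' hk' => by
      rw [← hdb k' (by omega), ← hdb k (by omega)]
      exact hst k (by omega) k' hk')
    (fun k hk w hw => by
      have := hdq k hk w hw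
      rw [hdb k (by omega)] at this
      exact this)
    (fun i hi j hj k hk => by
      have h1 := hnear.up i hi j hj k (by omega)
      rw [hL k] at h1
      have h2 := Pool.RTS.iso_le (dgN hn P P' (show Od n from q.k.2) k)
        (((kitN H p K).kit.y q).1 + ((kitN H p K).kit.y q).2 + i * msh ((kitN H p K).kit.X q) N M)
        (((kitN H p K).kit.y q).1 + j * msh ((kitN H p K).kit.X q) N M)
      rw [← hdb k (by omega)]
      change b i j k < iso _ (q.g + q.r + i * msh q.r N M) (q.g + j * msh q.r N M) at h1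
      change iso _ (q.g + q.r + i * msh q.r N M) (q.g + j * msh q.r N M) ≤
        dgN hn P P' (show Od n from q.k.2) k (q.g + j * msh q.r N M) +
          (q.g + q.r + i * msh q.r N M - (q.g + j * msh q.r N M)) at h2
      linarith)
    (fun i hi j hj k hk => by
      have h1 := hnear.lo i hi j hj k (by omega)
      rw [hL k] at h1
      rw [← hdb k (by omega)]
      change iso _ (q.g + q.r + i * msh q.r N M) (q.g + j * msh q.r N M) - θ * msh q.r N M ≤
        b i j k at h1
      obtain ⟨i1, i2⟩ := hjζ i hi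
      obtain ⟨j1, j2⟩ := hjζ j hj
      have h2 := hC.bd k (by omega) (q.g + j * msh q.r N M) (by linarith) (by linarith)
      rw [← hdb k (by omega)] at h2
      have h3 := hC.sg1
      unfold iso at h1
      rw [min_eq_right (by linarith)] at h1
      linarith)
    { ag := hgn2.ag
      rad := hgn2.rad
      win := hgn2.win
      lo := hgn2.lo
      up := fun k hk => by
        have := hgn2.up k hk
        rw [hdb k (by omega)] at this
        exact this
      gn := by
        have := hgn2.gn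
        rw [hdb l hl] at this
        exact this } hK₁ hchn
  refine ⟨C, hC1, Bas.mono 0 hB ?_⟩
  intro J _ F A hA D hD
  obtain ⟨hD1, hD2⟩ := hD
  obtain ⟨e₀, g₀, G₀, H₀, hBal⟩ := hD2
  obtain ⟨B, UD, UL, pr, k1, k2, k3, k4⟩ := hA D sh
    (fun j k => (dgB p.cell (fun _ => jxI n) (n - 1) q k (q.g + j * msh q.r N M) -
      θ * msh q.r N M) * J)
    (fun j k => dgB p.cell (fun _ => jxI n) (n - 1) q k (q.g + j * msh q.r N M) * J) e₀ g₀ G₀ H₀
    hD1 hBal (fun j hj k hk => by
      have e3 : ∀ w, dgB p.cell (fun _ => jxI n) (n - 1) q k w =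
          bet (P' (show Od n from q.k.2).2) (cc hn (show Od n from q.k.2).1.1) k w w := by
        intro w
        rw [← hdb k (by omega), ← kit_dg H (K := K) q k]
        rfl
      exact ⟨by rw [e3], by rw [e3]⟩)
  refine ⟨B, k1, k2, fun i j k => ⌊b i j k * J⌋₊, pr, UD, UL, fun i hi j hj k hk => ?_,
    fun i hi j hj => ?_, ?_⟩
  · have h1 := hnear.up i hi j hj k hk
    have h2 := hnear.lo i hi j hj k hk
    have hJ0 : (0 : ℝ) ≤ J := Nat.cast_nonneg J
    refine ⟨Nat.floor_le_floor (mul_le_mul_of_nonneg_right h1.le hJ0), Nat.floor_le_of_le ?_⟩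
    have h3 := Nat.lt_floor_add_one (b i j k * J)
    have h4 := Nat.le_ceil (θ * (up (msh ((kitN H p K).kit.X q) N M) J : ℕ))
    have h5 := mul_le_mul_of_nonneg_left (up_ge (msh ((kitN H p K).kit.X q) N M) J) hθ.le
    have h6 := mul_le_mul_of_nonneg_right h2 hJ0
    push_cast
    linarith
  · refine le_trans (Nat.add_le_add_right (Nat.floor_le_floor ?_) _) (k3 i hi j hj)
    refine mul_le_mul_of_nonneg_right ?_ (Nat.cast_nonneg J)
    rw [hL l]
    have h2 := Pool.RTS.iso_le (dgN hn P P' (show Od n from q.k.2) l)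
      (q.g + q.r + i * msh q.r N M) (q.g + j * msh q.r N M)
    rw [hdb l hl] at h2
    refine h2.trans (le_of_eq ?_)
    ring
  · have e1 : 16 * θ * msh ((kitN H p K).kit.X q) N M = 16 * (θ * msh q.r N M) := mul_assoc _ _ _
    rw [e1]
    exact k4

end Pool.PKG
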