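import Pool.Agent.H89.STG.Var

/-!
# Telescoping over a chain of balls, at one point

`tel_var`: the labels of the balls `B s`, `s ≤ n`, change by small amounts from one ball to the next
one; then they vary, over the labels `G = B 0 + const`, by a natural amount of `G` on the natural box
of `G` around the point.
-/

set_option autoImplicit false

namespace Pool.STG

open Finset Real MvPolynomial
open Pool.Agent.H49.Ent Pool.Agent.H32.Dense Pool.STK Pool.KA Pool.KSAT Pool.K2S Pool.PB Pool.S6C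
open Pool.GEN Pool.CHT

/-- **The labels of the balls** around the point `x`, and their numbers: `gB` the precisions, `rd` the
radii; `g`, `a` the precisions and the radius of the box. -/
structure TelD {m : ℕ} (c : ℕ → Fin m) (L K n Y W Δ Zt a : ℕ) (x : Option (Fin m) → ℝ)
    (Bq : ℕ → ℕ → MvPolynomial (Option (Fin m)) ℝ) (gB : ℕ → ℕ → ℕ) (rd : ℕ → ℕ)
    (g : ℕ → ℕ) : Prop where
  deg : ∀ s ≤ n, ∀ k, (Bq s k).totalDegree ≤ K
  dep : ∀ s ≤ n, ∀ k, DepC c k (Bq s k)
  own : ∀ s ≤ n, ∀ k ≤ L, |x (some (c k)) - eval x (Bq s k)| ≤ 1 / 2 ^ gB s k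
  stp : ∀ s < n, ∀ k ≤ L, ∀ b, NBx c (Bq (s + 1)) (gB (s + 1)) (rd (s + 1)) (x none) k b →
    |eval b (Bq s k) - eval b (Bq (s + 1) k)| ≤ 2 ^ Y / 2 ^ gB s k
  n1 : ∀ s < n, rd (s + 1) ≤ a
  n2 : ∀ s < n, ∀ k ≤ L, g k + rd (s + 1) ≤ gB s k + a + W
  n3 : ∀ s < n, ∀ k ≤ L, ∀ k' < k, g k + gB (s + 1) k' ≤ gB s k + g k' + W
  n4 : ∀ s < n, ∀ k < L, gB (s + 1) k + Zt + 2 ≤ g k

/-- **Telescoping over a chain of balls**: the variation on the natural box of the first ball. -/
theorem tel_var (r K : ℕ) : ∃ c₀ : ℕ, ∀ {m : ℕ} {c : ℕ → Fin m} {L n ln Y W Δ Zt a : ℕ}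
    {x : Option (Fin m) → ℝ} {Bq : ℕ → ℕ → MvPolynomial (Option (Fin m)) ℝ} {gB : ℕ → ℕ → ℕ}
    {rd : ℕ → ℕ} {g : ℕ → ℕ}, TelD c L K n Y W Δ Zt a x Bq gB rd g → L < r →
    Set.InjOn c (Set.Iio r) → n ≤ 2 ^ ln → Δ + L * (ln + c₀ + Y + W + 2) ≤ Zt →
    ∀ G : ℕ → MvPolynomial (Option (Fin m)) ℝ, (∀ k, ∃ u : ℝ, G k = Bq 0 k + C u) →
    (∀ k ≤ L, |x (some (c k)) - eval x (G k)| ≤ 1 / 2 ^ g k) → ∀ k ≤ L, ∀ s ≤ n,
    ∀ b : Option (Fin m) → ℝ, |b none - x none| ≤ 1 / 2 ^ a →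
      (∀ k' < k, |b (some (c k')) - eval b (G k')| ≤ 2 ^ Δ / 2 ^ g k') →
      |(eval b (Bq s k) - eval b (G k)) - (eval x (Bq s k) - eval x (G k))| ≤
        2 ^ (Δ + (k + 1) * (ln + c₀ + Y + W + 2)) / 2 ^ g k := by
  obtain ⟨c₀, hvar⟩ := nbx_var r (fun _ => K) K
  refine ⟨c₀, ?_⟩
  intro m c L n ln Y W Δ Zt a x Bq gB rd g T hL hc hn hZt G hG hxG k
  obtain ⟨U, hU⟩ : ∃ U, U = ln + c₀ + Y + W + 2 := ⟨_, rfl⟩
  rw [← hU] at hZt ⊢
  induction k using Nat.strong_induction_on with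
  | _ k ih =>
  intro hk
  -- one step
  have hst : ∀ s < n, ∀ b : Option (Fin m) → ℝ, |b none - x none| ≤ 1 / 2 ^ a →
      (∀ k' < k, |b (some (c k')) - eval b (G k')| ≤ 2 ^ Δ / 2 ^ g k') →
      |(eval b (Bq (s + 1) k) - eval b (Bq s k)) - (eval x (Bq (s + 1) k) - eval x (Bq s k))| ≤
        2 ^ (c₀ + Y + W + (Δ + k * U) + 2) / 2 ^ g k := by
    intro s hs b hb0 hb
    obtain ⟨ν, hν⟩ : ∃ ν, ν = g k - (gB s k + W + (Δ + k * U) + 2) := ⟨_, rfl⟩
    have a1 := T.n1 s hs
    have a2 := T.n2 s hs k hk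
    have hcle : Set.InjOn c (Set.Iio k) := hc.mono fun y hy => by
      rw [Set.mem_Iio] at hy ⊢
      omega
    have h1 := hvar (c := c) (i := k) (G := Bq (s + 1)) (Q := Bq s k - Bq (s + 1) k)
      (g := gB (s + 1)) (a := rd (s + 1)) (t := x none) (M := 2 ^ Y / 2 ^ gB s k) ν (by omega) hcle
      (T.deg (s + 1) (by omega)) (T.dep (s + 1) (by omega))
      (fun b b' h0 h1 => by
        rw [map_sub, map_sub, T.dep s (by omega) k b b' h0 h1, T.dep (s + 1) (by omega) k b b' h0 h1])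
      ((totalDegree_sub _ _).trans (max_le (T.deg s (by omega) k) (T.deg (s + 1) (by omega) k)))
      (by positivity) (fun b hb => by
        rw [map_sub]
        exact T.stp s hs k hk b hb) x b rfl (fun l hl => T.own (s + 1) (by omega) l (by omega))
      (hb0.trans (one_div_pow_le_one_div_pow_of_le (by norm_num) (by omega)))
      (fun l hl => by
        have e1 : (b (some (c l)) - eval b (Bq (s + 1) l)) -
            (x (some (c l)) - eval x (Bq (s + 1) l)) =
            (b (some (c l)) - eval b (G l)) - (x (some (c l)) - eval x (G l)) -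
            ((eval b (Bq (s + 1) l) - eval b (G l)) - (eval x (Bq (s + 1) l) - eval x (G l))) := by
          ring
        have h2 := ih l hl (by omega) (s + 1) (by omega) b hb0 fun k' hk' => hb k' (by omega)
        have h3 := hb l hl
        have h4 := hxG l (by omega)
        have h5 := T.n3 s hs k hk l hl
        have h6 := T.n4 s hs l (by omega)
        have h7 : (l + 1) * U ≤ k * U := Nat.mul_le_mul_right _ (by omega)
        have h8 : k * U ≤ L * U := Nat.mul_le_mul_right _ hk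
        have p1 : (2 : ℝ) ^ (Δ + (l + 1) * U) / 2 ^ g l ≤ 2 ^ (Δ + k * U) / 2 ^ g l :=
          div_le_div_of_nonneg_right (pow_le_pow_right₀ (by norm_num) (by omega)) (by positivity)
        have p2 : (2 : ℝ) ^ Δ / 2 ^ g l ≤ 2 ^ (Δ + k * U) / 2 ^ g l :=
          div_le_div_of_nonneg_right (pow_le_pow_right₀ (by norm_num) (by omega)) (by positivity)
        have p3 : (1 : ℝ) / 2 ^ g l ≤ 2 ^ (Δ + k * U) / 2 ^ g l :=
          div_le_div_of_nonneg_right (one_le_pow₀ (by norm_num)) (by positivity)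
        have p4 : (2 : ℝ) ^ (Δ + k * U + 2) / 2 ^ g l ≤ 1 / 2 ^ (gB (s + 1) l + ν) := by
          rw [div_le_div_iff₀ (by positivity) (by positivity), one_mul, ← pow_add]
          refine pow_le_pow_right₀ (by norm_num) ?_
          omega
        have p5 : (2 : ℝ) ^ (Δ + k * U + 2) / 2 ^ g l = 4 * (2 ^ (Δ + k * U) / 2 ^ g l) := by
          rw [pow_add]
          ring
        have p6 : (0 : ℝ) ≤ 2 ^ (Δ + k * U) / 2 ^ g l := by positivity
        rw [e1]
        rw [abs_le] at h2 h3 h4 ⊢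
        constructor <;> linarith only [h2.1, h2.2, h3.1, h3.2, h4.1, h4.2, p1, p2, p3, p4, p5, p6])
    have e2 : (eval b (Bq (s + 1) k) - eval b (Bq s k)) -
        (eval x (Bq (s + 1) k) - eval x (Bq s k)) =
        -(eval b (Bq s k - Bq (s + 1) k) - eval x (Bq s k - Bq (s + 1) k)) := by
      rw [map_sub, map_sub]
      ring
    rw [e2, abs_neg]
    refine h1.trans ?_
    rw [div_mul_div_comm, div_le_div_iff₀ (by positivity) (by positivity), ← pow_add, ← pow_add,
      ← pow_add, ← pow_add]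
    refine pow_le_pow_right₀ (by norm_num) ?_
    omega
  intro s hs b hb0 hb
  -- the sum
  have hsum : ∀ s ≤ n, |(eval b (Bq s k) - eval b (Bq 0 k)) -
      (eval x (Bq s k) - eval x (Bq 0 k))| ≤
      s * (2 ^ (c₀ + Y + W + (Δ + k * U) + 2) / 2 ^ g k) := by
    intro s
    induction s with
    | zero =>
      intro _
      simp
    | succ s ihs =>
      intro hs
      have h1 := ihs (by omega)
      have h2 := hst s (by omega) b hb0 hb
      push_cast
      rw [abs_le] at h1 h2 ⊢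
      constructor <;> linarith only [h1.1, h1.2, h2.1, h2.2]
  obtain ⟨u, hu⟩ := hG k
  have e3 : (eval b (Bq s k) - eval b (G k)) - (eval x (Bq s k) - eval x (G k)) =
      (eval b (Bq s k) - eval b (Bq 0 k)) - (eval x (Bq s k) - eval x (Bq 0 k)) := by
    rw [hu, map_add, map_add, eval_C, eval_C]
    ring
  rw [e3]
  refine (hsum s hs).trans ?_
  have h1 : (s : ℝ) ≤ 2 ^ ln := by exact_mod_cast hs.trans hn
  calc (s : ℝ) * (2 ^ (c₀ + Y + W + (Δ + k * U) + 2) / 2 ^ g k) ≤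
        2 ^ ln * (2 ^ (c₀ + Y + W + (Δ + k * U) + 2) / 2 ^ g k) :=
        mul_le_mul_of_nonneg_right h1 (by positivity)
    _ = 2 ^ (Δ + (k + 1) * U) / 2 ^ g k := by
        rw [← mul_div_assoc, ← pow_add]
        congr 2
        rw [Nat.add_mul, one_mul]
        omega

end Pool.STG
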