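import Pool.Agent.H78.MIC.ConI
import Pool.Agent.H89.STG.Stp
import Pool.Agent.H89.STG.Tel

/-!
# Labels with gain near the labels of a grid, by telescoping over balls

`BlD`: charts of balls, radii and windows from the windows of the grid to the radius of a chain with
gain. `stg_grid`: the chain with gain is near to the labels of the grid, if there are no better labels
on the balls.
-/

set_option autoImplicit false

namespace Pool.STG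

open Finset MvPolynomial
open Pool.Agent.H49.Ent Pool.Agent.H32.Dense Pool.STK Pool.KA Pool.KSAT Pool.K2S Pool.PB Pool.S6C
open Pool.GEN Pool.CHT
open Pool.RLV (TmN near_rel)
open Pool.STAT (dep_sub two_pow_le pow_div_le one_div_pow_le cex cex_mono)

/-- **One event for finitely many properties.** -/
theorem itr_ev {m J : ℕ} {F : Fam m J} {B : F.Ω → Prop} (q : ℕ)
    {Φ : ℕ → (F.Ω → Prop) → Prop} (hher : ∀ t B₁ B₂, Sub B₂ B₁ → Φ t B₁ → Φ t B₂) (R : ℕ)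
    (h : ∀ t < R, ∀ B₁, Sub B₁ B → Pe F.p B ≤ 2 ^ (q * t) * Pe F.p B₁ →
      ∃ B₂, Sub B₂ B₁ ∧ Pe F.p B₁ ≤ 2 ^ q * Pe F.p B₂ ∧ Φ t B₂) :
    ∃ B', Sub B' B ∧ Pe F.p B ≤ 2 ^ (q * R) * Pe F.p B' ∧ ∀ t < R, Φ t B' := by
  induction R with
  | zero =>
    exact ⟨B, fun _ h => h, by simp, fun t ht => absurd ht (Nat.not_lt_zero t)⟩
  | succ R ih =>
    obtain ⟨B₁, b1, b2, b3⟩ := ih fun t ht => h t (by omega)
    obtain ⟨B₂, c1, c2, c3⟩ := h R (Nat.lt_succ_self R) B₁ b1 b2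
    refine ⟨B₂, fun ω h => b1 ω (c1 ω h), ?_, fun t ht => ?_⟩
    · calc Pe F.p B ≤ 2 ^ (q * R) * Pe F.p B₁ := b2
        _ ≤ 2 ^ (q * R) * (2 ^ q * Pe F.p B₂) := mul_le_mul_of_nonneg_left c2 (by positivity)
        _ = 2 ^ (q * (R + 1)) * Pe F.p B₂ := by rw [← mul_assoc, ← pow_add]; ring_nf
    · rcases Nat.lt_succ_iff_lt_or_eq.1 ht with h1 | rfl
      · exact hher t B₁ B₂ c1 (b3 t h1)
      · exact c3

/-- **Charts of balls** `(j, s)`, `j ≤ M`, `s ≤ nb`, and their numbers: the radius (and window)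
`rd j s`, the precisions `gB j s k`; `z` is the mesh of the grid, `x` the size of the losses. -/
structure BlD {m J : ℕ} (F : Fam m J) (c : ℕ → Fin m) (l K M nb a₀ w₀ z x Cy y₀ : ℕ)
    (rd : ℕ → ℕ → ℕ) (eB : ℕ → ℕ → ℕ) (gB : ℕ → ℕ → ℕ → ℕ)
    (Bq : ℕ → ℕ → PtT F → ℕ → MvPolynomial (Option (Fin m)) ℝ)
    (Hq : ℕ → ℕ → LnT F → ℕ → MvPolynomial (Option (Fin m)) ℝ) (B : F.Ω → Prop) : Prop where
  chn : ∀ j ≤ M, ∀ s ≤ nb, ChOK F c (l + 1) (fun _ => K) (rd j s) (rd j s) (eB j s) (gB j s) B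
    (Bq j s) (Hq j s)
  rd0 : ∀ j ≤ M, rd j 0 = w₀ + j * z
  rdm : ∀ j ≤ M, ∀ s < nb, rd j s ≤ rd j (s + 1)
  rda : ∀ j ≤ M, ∀ s ≤ nb, rd j s ≤ a₀
  rdJ : ∀ j ≤ M, ∀ s ≤ nb, rd j s + Cy * x ≤ J
  gm : ∀ j ≤ M, ∀ s < nb, ∀ k ≤ l, gB j s k ≤ gB j (s + 1) k
  gC : ∀ j ≤ M, ∀ s ≤ nb, ∀ k ≤ l, Cy * x ≤ gB j s k
  gJ : ∀ j ≤ M, ∀ s < nb, ∀ k < l, gB j (s + 1) k + eB j (s + 1) + y₀ + Cy * x ≤ J
  nlp : ∀ j ≤ M, ∀ s < nb, ∀ k < l, ∀ k' < k, nlp (gB j (s + 1)) k' k ≤ y₀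

/-- **The numbers of the balls against the numbers of the grid.** -/
structure BlG (l M nb a₀ z x Wc Zc : ℕ) (rd : ℕ → ℕ → ℕ) (gB g : ℕ → ℕ → ℕ → ℕ) : Prop where
  n2 : ∀ i ≤ M, ∀ j ≤ M, ∀ s < nb, ∀ k ≤ l, g i j k + rd j (s + 1) ≤ gB j s k + (a₀ + i * z) +
    Wc * x
  n3 : ∀ i ≤ M, ∀ j ≤ M, ∀ s < nb, ∀ k ≤ l, ∀ k' < k, g i j k + gB j (s + 1) k' ≤
    gB j s k + g i j k' + Wc * x
  n4 : ∀ i ≤ M, ∀ j ≤ M, ∀ s < nb, ∀ k < l, gB j (s + 1) k + Zc * x + 2 ≤ g i j k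

/-- **The chain with gain is near to the labels of the grid.** -/
theorem stg_grid (V K DT l Wc : ℕ) : ∃ Cy κ N Kn Zc S : ℕ, 1 ≤ κ ∧ ∀ {m J M nb ln : ℕ}
    {F : Fam m J} {c : ℕ → Fin m} {a₀ w₀ z x e₀ y₀ aT wT eT : ℕ} {e : ℕ → ℕ → ℕ}
    {g gB : ℕ → ℕ → ℕ → ℕ} {rd eB : ℕ → ℕ → ℕ} {gT : ℕ → ℕ} {B : F.Ω → Prop}
    {G : ℕ → ℕ → PtT F → ℕ → MvPolynomial (Option (Fin m)) ℝ}
    {H : ℕ → ℕ → LnT F → ℕ → MvPolynomial (Option (Fin m)) ℝ}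
    {Bq : ℕ → ℕ → PtT F → ℕ → MvPolynomial (Option (Fin m)) ℝ}
    {Hq : ℕ → ℕ → LnT F → ℕ → MvPolynomial (Option (Fin m)) ℝ}
    {T : PtT F → ℕ → MvPolynomial (Option (Fin m)) ℝ}
    {TH : LnT F → ℕ → MvPolynomial (Option (Fin m)) ℝ},
    Set.InjOn c (Set.Iio (l + 1)) →
    (∀ i ≤ M, ∀ j ≤ M, ChOK F c (l + 1) (fun _ => K) (a₀ + i * z) (w₀ + j * z) (e i j) (g i j) B
      (G i j) (H i j)) →
    (∀ i ≤ M, ∀ j ≤ M, ∀ y k, ∃ u : ℝ, G i j y k = Bq j 0 y k + C u) →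
    BlD F c l K M nb a₀ w₀ z x Cy y₀ rd eB gB Bq Hq B →
    BlG l M nb a₀ z x Wc Zc rd gB g → 1 ≤ nb →
    (∀ j ≤ M, aT ≤ rd j nb) → wT ≤ w₀ →
    ChOK F c (l + 1) (fun _ => DT) aT wT eT gT B T TH →
    TmN F (2 ^ ((l + 1) * ((M + 1) * (nb + 1))) * N) e₀ B → e₀ + 1 ≤ x → κ ≤ x →
    nb ≤ 2 ^ ln → ln ≤ x →
    (∀ j ≤ M, ∀ k ≤ l, Cy * x ≤ gT k ∧ gT k ≤ gB j nb k) →
    (∀ i ≤ M, ∀ j ≤ M, g i j l + Cy * x ≤ gT l) →
    (∀ j ≤ M, ∀ s < nb, ∀ k < l, ∀ μ, x ≤ μ → μ ≤ Cy * x → ∀ B' : F.Ω → Prop, Sub B' B →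
      Pe F.p B ≤ (2 ^ ((l + 1) * ((M + 1) * (nb + 1))) * N : ℕ) * Pe F.p B' →
      ∀ (e' : ℕ) (g' : ℕ → ℕ), (∀ k' < k, g' k' ≤ gB j (s + 1) k' + 4 * μ) →
      gB j (s + 1) k + V * μ ≤ g' k → g' k ≤ gB j (s + 1) k + (V + 4) * μ →
      ¬ ChN F c (k + 1) (fun _ => Kn) (rd j (s + 1) + 4 * μ) (rd j (s + 1) + 4 * μ) e' g' B') →
    ∃ B' : F.Ω → Prop, Sub B' B ∧
      Pe F.p B ≤ 2 ^ ((l + 1) * ((M + 1) * (nb + 1))) * Pe F.p B' ∧
      ∀ i ≤ M, ∀ j ≤ M, ∀ ω, B' ω → ∀ b,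
      NBx c (G i j (ptr F J ω)) (g i j) (a₀ + i * z) (F.t ω) l b →
        |eval b (T (ptr F J ω) l) - eval b (TH (slam F wT ω) l)| ≤ 2 ^ (S * x) / 2 ^ gT l ∧
        |eval b (T (ptr F J ω) l) - eval b (G i j (ptr F J ω) l)| ≤
          2 ^ (S * x) / 2 ^ g i j l := by
  classical
  obtain ⟨K₁, hK₁⟩ : ∃ K₁, K₁ = max K DT := ⟨_, rfl⟩
  obtain ⟨Cy, κ, N, Kn, hκ, hstp⟩ := con_stp V K₁ K₁ l
  obtain ⟨c₀, htel⟩ := tel_var (l + 1) K₁
  obtain ⟨c₁, D₁, hD₁, hdil⟩ := nbx_dil (l + 1) (fun _ => K₁)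
  obtain ⟨U, hU⟩ : ∃ U, U = Cy + Wc + 4 := ⟨_, rfl⟩
  refine ⟨Cy, κ + c₀, N, Kn, l * U, (l + 1) * U + Cy + c₁ + D₁ + 4, by omega, ?_⟩
  intro m J M nb ln F c a₀ w₀ z x e₀ y₀ aT wT eT e g gB rd eB gT B G H Bq Hq T TH hc hG hGB hBl
    hBg hnb haT hwT hT htm he0 hκx hln hlx hgT hgl hno
  have hx1 : 1 ≤ x := by omega
  have hBc : ∀ j ≤ M, ∀ s ≤ nb, ChOK F c (l + 1) (fun _ => K₁) (rd j s) (rd j s) (eB j s)
      (gB j s) B (Bq j s) (Hq j s) := fun j hj s hs =>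
    (hBl.chn j hj s hs).mono le_rfl (fun _ => by rw [hK₁]; exact le_max_left _ _) le_rfl le_rfl
  have hTc : ChOK F c (l + 1) (fun _ => K₁) aT wT eT gT B T TH :=
    hT.mono le_rfl (fun _ => by rw [hK₁]; exact le_max_right _ _) le_rfl le_rfl
  obtain ⟨Rt, hRt⟩ : ∃ Rt, Rt = (M + 1) * (nb + 1) := ⟨_, rfl⟩
  rw [← hRt] at htm hno ⊢
  have hnb0 : 0 < nb + 1 := Nat.succ_pos nb
  -- one step of the iteration
  have step : ∀ j ≤ M, ∀ s < nb, ∀ (aU wU eU : ℕ) (gU : ℕ → ℕ)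
      (Tq : PtT F → ℕ → MvPolynomial (Option (Fin m)) ℝ)
      (THq : LnT F → ℕ → MvPolynomial (Option (Fin m)) ℝ) (t : ℕ), t < Rt →
      ∀ B₁ : F.Ω → Prop, Sub B₁ B → Pe F.p B ≤ 2 ^ ((l + 1) * t) * Pe F.p B₁ →
      aU ≤ rd j (s + 1) → wU ≤ rd j (s + 1) →
      ChOK F c (l + 1) (fun _ => K₁) aU wU eU gU B Tq THq →
      (∀ k ≤ l, Cy * x ≤ gU k ∧ gU k ≤ gB j (s + 1) k) →
      ∃ B₂ : F.Ω → Prop, Sub B₂ B₁ ∧ Pe F.p B₁ ≤ 2 ^ (l + 1) * Pe F.p B₂ ∧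
        ∀ ω, B₂ ω → ∀ k ≤ l, ∀ b,
        NBx c (Bq j (s + 1) (ptr F J ω)) (gB j (s + 1)) (rd j (s + 1)) (F.t ω) k b →
          |eval b (Tq (ptr F J ω) k) - eval b (THq (slam F wU ω) k)| ≤
            2 ^ (Cy * x) / 2 ^ gU k ∧
          |eval b (Tq (ptr F J ω) k) - eval b (Bq j (s + 1) (ptr F J ω) k)| ≤
            2 ^ (Cy * x) / 2 ^ gU k := by
    intro j hj s hs aU wU eU gU Tq THq t ht B₁ hB₁ hP₁ haU hwU hU1 hgU
    have hpow : (2 : ℕ) ^ ((l + 1) * t) ≤ 2 ^ ((l + 1) * Rt) :=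
      Nat.pow_le_pow_right (by norm_num) (Nat.mul_le_mul_left _ ht.le)
    have hrJ := hBl.rdJ j hj (s + 1) (by omega)
    refine hstp (m := m) (J := J) (F := F) (c := c) (a := rd j (s + 1)) (w := rd j (s + 1))
      (e := eB j (s + 1)) (e₀ := e₀) (y₀ := y₀) (z := x) (aT := aU) (wT := wU) (eT := eU)
      (g := gB j (s + 1)) (gT := gU) (B := B₁) (G := Bq j (s + 1)) (T := Tq) (H := Hq j (s + 1))
      (TH := THq) le_rfl (by omega) hc ((hBc j hj (s + 1) (by omega)).sub hB₁) haU hwU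
      (hU1.sub hB₁) (htm.sub hB₁ (k := 2 ^ ((l + 1) * t)) (by push_cast; exact hP₁)
        (Nat.mul_le_mul_right _ hpow)) he0 (by omega) (hBl.nlp j hj s hs)
      (fun k hk => ⟨hBl.gC j hj (s + 1) (by omega) k hk.le, hBl.gJ j hj s hs k hk⟩) hrJ hgU
      (fun k hk μ h1 h2 B' h3 h4 e' g' h5 h6 h7 => hno j hj s hs k hk μ h1 h2 B'
        (fun ω h => hB₁ ω (h3 ω h)) (by
          calc Pe F.p B ≤ 2 ^ ((l + 1) * t) * Pe F.p B₁ := hP₁
            _ ≤ 2 ^ ((l + 1) * t) * (N * Pe F.p B') :=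
                mul_le_mul_of_nonneg_left h4 (by positivity)
            _ = ((2 ^ ((l + 1) * t) * N : ℕ) : ℝ) * Pe F.p B' := by push_cast; ring
            _ ≤ _ := mul_le_mul_of_nonneg_right (by
                exact_mod_cast Nat.mul_le_mul_right N hpow) (Pe_nonneg F.isLaw B')) e' g' h5 h6 h7)
  -- all the steps
  obtain ⟨Φ, hΦ⟩ : ∃ Φ : ℕ → (F.Ω → Prop) → Prop, Φ = fun t B₁ =>
      (t % (nb + 1) < nb → ∀ ω, B₁ ω → ∀ k ≤ l, ∀ b,
        NBx c (Bq (t / (nb + 1)) (t % (nb + 1) + 1) (ptr F J ω))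
          (gB (t / (nb + 1)) (t % (nb + 1) + 1)) (rd (t / (nb + 1)) (t % (nb + 1) + 1))
          (F.t ω) k b →
        |eval b (Bq (t / (nb + 1)) (t % (nb + 1)) (ptr F J ω) k) -
          eval b (Bq (t / (nb + 1)) (t % (nb + 1) + 1) (ptr F J ω) k)| ≤
            2 ^ (Cy * x) / 2 ^ gB (t / (nb + 1)) (t % (nb + 1)) k) ∧
      (t % (nb + 1) = nb → ∀ ω, B₁ ω → ∀ k ≤ l, ∀ b,
        NBx c (Bq (t / (nb + 1)) nb (ptr F J ω)) (gB (t / (nb + 1)) nb) (rd (t / (nb + 1)) nb)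
          (F.t ω) k b →
        |eval b (T (ptr F J ω) k) - eval b (TH (slam F wT ω) k)| ≤ 2 ^ (Cy * x) / 2 ^ gT k ∧
        |eval b (T (ptr F J ω) k) - eval b (Bq (t / (nb + 1)) nb (ptr F J ω) k)| ≤
          2 ^ (Cy * x) / 2 ^ gT k) := ⟨_, rfl⟩
  obtain ⟨B', hB', hPB', hall⟩ := itr_ev (F := F) (B := B) (l + 1) (Φ := Φ) (by
    intro t B₁ B₂ h12 h1
    rw [hΦ] at h1 ⊢
    exact ⟨fun ht ω hω => h1.1 ht ω (h12 ω hω), fun ht ω hω => h1.2 ht ω (h12 ω hω)⟩) Rt (by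
    intro t ht B₁ hB₁ hP₁
    obtain ⟨j, hj⟩ : ∃ j, j = t / (nb + 1) := ⟨_, rfl⟩
    obtain ⟨s, hs⟩ : ∃ s, s = t % (nb + 1) := ⟨_, rfl⟩
    have hjM : j ≤ M := by
      have h1 : t / (nb + 1) < M + 1 := Nat.div_lt_of_lt_mul (by rw [hRt] at ht; linarith)
      omega
    have hsn : s ≤ nb := by
      have := Nat.mod_lt t hnb0
      omega
    rw [hΦ]
    beta_reduce
    rw [← hj, ← hs]
    rcases hsn.lt_or_eq with h1 | h1
    · obtain ⟨B₂, b1, b2, b3⟩ := step j hjM s h1 (rd j s) (rd j s) (eB j s) (gB j s) (Bq j s)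
        (Hq j s) t ht B₁ hB₁ hP₁ (hBl.rdm j hjM s h1) (hBl.rdm j hjM s h1)
        (hBc j hjM s h1.le) (fun k hk => ⟨hBl.gC j hjM s h1.le k hk, hBl.gm j hjM s h1 k hk⟩)
      exact ⟨B₂, b1, b2, fun _ ω hω k hk b hb => (b3 ω hω k hk b hb).2,
        fun h2 => absurd h2 (by omega)⟩
    · obtain ⟨s', rfl⟩ : ∃ s', nb = s' + 1 := ⟨nb - 1, by omega⟩
      have hw1 : w₀ ≤ rd j (s' + 1) := by
        have h2 : ∀ s ≤ s' + 1, rd j 0 ≤ rd j s := by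
          intro s
          induction s with
          | zero => exact fun _ => le_rfl
          | succ s ih => exact fun h => (ih (by omega)).trans (hBl.rdm j hjM s (by omega))
        have h3 := h2 (s' + 1) le_rfl
        rw [hBl.rd0 j hjM] at h3
        omega
      obtain ⟨B₂, b1, b2, b3⟩ := step j hjM s' (Nat.lt_succ_self s') aT wT eT gT T TH t ht B₁ hB₁
        hP₁ (haT j hjM) (hwT.trans hw1) hTc (fun k hk => hgT j hjM k hk)
      exact ⟨B₂, b1, b2, fun h2 => absurd h2 (by omega), fun _ => b3⟩)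
  refine ⟨B', hB', hPB', fun i hi j hj ω hω b hb => ?_⟩
  have hst : ∀ s < nb, ∀ k ≤ l, ∀ b, NBx c (Bq j (s + 1) (ptr F J ω)) (gB j (s + 1))
      (rd j (s + 1)) (F.t ω) k b → |eval b (Bq j s (ptr F J ω) k) -
        eval b (Bq j (s + 1) (ptr F J ω) k)| ≤ 2 ^ (Cy * x) / 2 ^ gB j s k := by
    intro s hs
    have h1 := hall ((nb + 1) * j + s) (by
      rw [hRt]
      calc (nb + 1) * j + s < (nb + 1) * j + (nb + 1) := by omega
        _ = (j + 1) * (nb + 1) := by ring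
        _ ≤ _ := Nat.mul_le_mul_right _ (by omega))
    rw [hΦ] at h1
    have e1 : ((nb + 1) * j + s) % (nb + 1) = s := by
      rw [Nat.mul_add_mod, Nat.mod_eq_of_lt (by omega)]
    have e2 : ((nb + 1) * j + s) / (nb + 1) = j := by
      rw [Nat.mul_add_div hnb0, Nat.div_eq_of_lt (by omega), Nat.add_zero]
    rw [e1, e2] at h1
    exact h1.1 hs ω hω
  have hTt : ∀ k ≤ l, ∀ b, NBx c (Bq j nb (ptr F J ω)) (gB j nb) (rd j nb) (F.t ω) k b →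
        |eval b (T (ptr F J ω) k) - eval b (TH (slam F wT ω) k)| ≤ 2 ^ (Cy * x) / 2 ^ gT k ∧
        |eval b (T (ptr F J ω) k) - eval b (Bq j nb (ptr F J ω) k)| ≤
          2 ^ (Cy * x) / 2 ^ gT k := by
    have h1 := hall ((nb + 1) * j + nb) (by
      rw [hRt]
      calc (nb + 1) * j + nb < (nb + 1) * j + (nb + 1) := by omega
        _ = (j + 1) * (nb + 1) := by ring
        _ ≤ _ := Nat.mul_le_mul_right _ (by omega))
    rw [hΦ] at h1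
    have e1 : ((nb + 1) * j + nb) % (nb + 1) = nb := by
      rw [Nat.mul_add_mod, Nat.mod_eq_of_lt (by omega)]
    have e2 : ((nb + 1) * j + nb) / (nb + 1) = j := by
      rw [Nat.mul_add_div hnb0, Nat.div_eq_of_lt (by omega), Nat.add_zero]
    rw [e1, e2] at h1
    exact h1.2 rfl ω hω
  -- telescoping
  obtain ⟨p, hp⟩ : ∃ p, p = bt F ω := ⟨_, rfl⟩
  have hp0 : p none = F.t ω := by rw [hp]; rfl
  have hpc : ∀ k, p (some (c k)) = F.x ω (c k) := fun k => by rw [hp]; rfl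
  have hGp : ∀ k ≤ l, |p (some (c k)) - eval p (G i j (ptr F J ω) k)| ≤ 1 / 2 ^ g i j k :=
    fun k hk => by
      rw [hpc, hp]
      exact (hG i hi j hj).pos ω (hB' ω hω) k (by omega)
  have hBp : ∀ s ≤ nb, ∀ k ≤ l, |p (some (c k)) - eval p (Bq j s (ptr F J ω) k)| ≤
      1 / 2 ^ gB j s k := fun s hs k hk => by
    rw [hpc, hp]
    exact (hBc j hj s hs).pos ω (hB' ω hω) k (by omega)
  have hxU : ∀ k, (k + 1) * (ln + c₀ + Cy * x + Wc * x + 2) ≤ (k + 1) * U * x := by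
    intro k
    have h1 : ln + c₀ + Cy * x + Wc * x + 2 ≤ U * x := by
      have h2 : U * x = Cy * x + Wc * x + 4 * x := by rw [hU]; ring
      have h3 : c₀ ≤ x := by omega
      omega
    calc (k + 1) * (ln + c₀ + Cy * x + Wc * x + 2) ≤ (k + 1) * (U * x) :=
          Nat.mul_le_mul_left _ h1
      _ = _ := by ring
  have hTel : TelD c l K₁ nb (Cy * x) (Wc * x) 0 (l * U * x) (a₀ + i * z) p
      (fun s => Bq j s (ptr F J ω)) (gB j) (rd j) (g i j) :=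
    { deg := fun s hs k => (hBc j hj s hs).degG _ k
      dep := fun s hs k => (hBc j hj s hs).depG _ k
      own := fun s hs k hk => hBp s hs k hk
      stp := fun s hs k hk b hb => hst s hs k hk b (by rw [hp0] at hb; exact hb)
      n1 := fun s hs => (hBl.rda j hj (s + 1) (by omega)).trans (Nat.le_add_right _ _)
      n2 := fun s hs k hk => hBg.n2 i hi j hj s hs k hk
      n3 := fun s hs k hk k' hk' => hBg.n3 i hi j hj s hs k hk k' hk'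
      n4 := fun s hs k hk => hBg.n4 i hi j hj s hs k hk }
  have hv := htel hTel (Nat.lt_succ_self l) hc hln (by
    rcases Nat.eq_zero_or_pos l with h0 | h0
    · rw [h0]; simp
    · have := hxU (l - 1)
      rw [Nat.sub_add_cancel h0] at this
      omega) (G i j (ptr F J ω)) (fun k => hGB i hi j hj _ k) hGp
  have hvb : ∀ k ≤ l, |(eval b (Bq j nb (ptr F J ω) k) - eval b (G i j (ptr F J ω) k)) -
      (eval p (Bq j nb (ptr F J ω) k) - eval p (G i j (ptr F J ω) k))| ≤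
      2 ^ ((k + 1) * U * x) / 2 ^ g i j k := by
    intro k hk
    refine (hv k hk nb le_rfl b (by rw [hp0]; exact hb.1) fun k' hk' => ?_).trans ?_
    · rw [pow_zero]
      exact hb.2 k' (by omega)
    · refine div_le_div_of_nonneg_right (two_pow_le ?_) (by positivity)
      have := hxU k
      omega
  -- the box of the last ball
  have hbB : ∀ k < l, |b (some (c k)) - eval b (Bq j nb (ptr F J ω) k)| ≤
      2 ^ 1 / 2 ^ gB j nb k := by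
    intro k hk
    obtain ⟨s', rfl⟩ : ∃ s', nb = s' + 1 := ⟨nb - 1, by omega⟩
    have h1 := hb.2 k hk
    have h2 := hvb k hk.le
    have h3 := hBp (s' + 1) le_rfl k hk.le
    have h4 := hGp k hk.le
    have h5 := hBg.n4 i hi j hj s' (Nat.lt_succ_self s') k hk
    have h6 : (k + 1) * U * x ≤ l * U * x :=
      Nat.mul_le_mul_right _ (Nat.mul_le_mul_right _ (by omega))
    have p1 : (2 : ℝ) ^ ((k + 1) * U * x) / 2 ^ g i j k * 4 ≤ 1 / 2 ^ gB j (s' + 1) k := by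
      rw [div_mul_eq_mul_div, div_le_div_iff₀ (by positivity) (by positivity), one_mul,
        show (4 : ℝ) = 2 ^ 2 by norm_num, ← pow_add, ← pow_add]
      exact two_pow_le (by omega)
    have p2 : (1 : ℝ) / 2 ^ g i j k ≤ 2 ^ ((k + 1) * U * x) / 2 ^ g i j k :=
      div_le_div_of_nonneg_right (one_le_pow₀ (by norm_num)) (by positivity)
    have p3 : (0 : ℝ) ≤ 2 ^ ((k + 1) * U * x) / 2 ^ g i j k := by positivity
    have p4 : (2 : ℝ) ^ 1 / 2 ^ gB j (s' + 1) k = 2 * (1 / 2 ^ gB j (s' + 1) k) := by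
      rw [pow_one]; ring
    rw [p4]
    rw [abs_le] at h1 h2 h3 h4 ⊢
    constructor <;> linarith only [h1.1, h1.2, h2.1, h2.2, h3.1, h3.2, h4.1, h4.2, p1, p2, p3]
  have hrd := hBl.rda j hj nb le_rfl
  have hb0 : |b none - F.t ω| ≤ 1 / 2 ^ rd j nb := hb.1.trans (inv_mono (by omega))
  have hc' : Set.InjOn c (Set.Iio l) := hc.mono fun y hy => by
    rw [Set.mem_Iio] at hy ⊢
    omega
  have q1 := hdil (c := c) (i := l) (G := Bq j nb (ptr F J ω))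
    (Q := T (ptr F J ω) l - TH (slam F wT ω) l) (g := gB j nb) (a := rd j nb) (t := F.t ω)
    (M := 2 ^ (Cy * x) / 2 ^ gT l) 1 (Nat.lt_succ_self l) hc' ((hBc j hj nb le_rfl).degG _)
    ((hBc j hj nb le_rfl).depG _) (dep_sub (hTc.depG _ l) (hTc.depH _ l))
    ((totalDegree_sub _ _).trans (max_le (hTc.degG _ l) (hTc.degH _ l))) (by positivity)
    (fun b hb => by
      rw [map_sub]
      exact (hTt l le_rfl b hb).1) b hb0 hbB
  have q2 := hdil (c := c) (i := l) (G := Bq j nb (ptr F J ω))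
    (Q := T (ptr F J ω) l - Bq j nb (ptr F J ω) l) (g := gB j nb) (a := rd j nb) (t := F.t ω)
    (M := 2 ^ (Cy * x) / 2 ^ gT l) 1 (Nat.lt_succ_self l) hc' ((hBc j hj nb le_rfl).degG _)
    ((hBc j hj nb le_rfl).depG _) (dep_sub (hTc.depG _ l) ((hBc j hj nb le_rfl).depG _ l))
    ((totalDegree_sub _ _).trans (max_le (hTc.degG _ l) ((hBc j hj nb le_rfl).degG _ l)))
    (by positivity)
    (fun b hb => by
      rw [map_sub]
      exact (hTt l le_rfl b hb).2) b hb0 hbB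
  rw [map_sub, one_mul, ← mul_div_assoc, ← pow_add] at q1 q2
  obtain ⟨St, hSt⟩ : ∃ St, St = (l + 1) * U + Cy + c₁ + D₁ + 4 := ⟨_, rfl⟩
  rw [← hSt]
  have hStx : St * x = (l + 1) * U * x + Cy * x + (c₁ + D₁) * x + 4 * x := by rw [hSt]; ring
  have hcx : (c₁ + D₁) * 1 ≤ (c₁ + D₁) * x := Nat.mul_le_mul_left _ hx1
  refine ⟨q1.trans (div_le_div_of_nonneg_right (two_pow_le (by omega)) (by positivity)), ?_⟩
  have h2 := hvb l le_rfl
  have h3 := hBp nb le_rfl l le_rfl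
  have h4 := hGp l le_rfl
  have h5 := hgl i hi j hj
  have h6 := (hgT j hj l le_rfl).2
  obtain ⟨Y, hY⟩ : ∃ Y, Y = (l + 1) * U * x + (c₁ + D₁) := ⟨_, rfl⟩
  have p1 : (2 : ℝ) ^ (c₁ + D₁ + Cy * x) / 2 ^ gT l ≤ 2 ^ Y / 2 ^ g i j l :=
    pow_div_le (by omega)
  have p2 : (2 : ℝ) ^ ((l + 1) * U * x) / 2 ^ g i j l ≤ 2 ^ Y / 2 ^ g i j l :=
    div_le_div_of_nonneg_right (two_pow_le (by omega)) (by positivity)
  have p3 : (1 : ℝ) / 2 ^ gB j nb l ≤ 2 ^ Y / 2 ^ g i j l := one_div_pow_le (by omega)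
  have p4 : (1 : ℝ) / 2 ^ g i j l ≤ 2 ^ Y / 2 ^ g i j l := one_div_pow_le (by omega)
  have p5 : (2 : ℝ) ^ Y / 2 ^ g i j l * 4 ≤ 2 ^ (St * x) / 2 ^ g i j l := by
    rw [div_mul_eq_mul_div]
    refine div_le_div_of_nonneg_right ?_ (by positivity)
    rw [show (4 : ℝ) = 2 ^ 2 by norm_num, ← pow_add]
    exact two_pow_le (by omega)
  rw [abs_le] at q2 h2 h3 h4 ⊢
  constructor <;> linarith only [q2.1, q2.2, h2.1, h2.2, h3.1, h3.2, h4.1, h4.2, p1, p2, p3, p4, p5]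

end Pool.STG
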