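import Pool.Agent.H89.STG.Fam

/-!
# The numbers of the balls of a grid

`BlN`: the numbers of the charts of balls. `StN`: the real numbers at a window. `stg_num`: the
numbers for `stg_fam`.
-/

set_option autoImplicit false

namespace Pool.STG

open Finset MvPolynomial
open Pool.Agent.H49.Ent Pool.Agent.H32.Dense Pool.STK Pool.KA Pool.KSAT Pool.K2S Pool.PB Pool.S6C
open Pool.GEN Pool.CHT Pool.STAT
open CLO

/-- The numbers of the charts of balls. -/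
structure BlN (l M nb J a₀ w₀ z x Cy y₀ : ℕ) (rd : ℕ → ℕ → ℕ) (eB : ℕ → ℕ → ℕ)
    (gB : ℕ → ℕ → ℕ → ℕ) : Prop where
  rd0 : ∀ j ≤ M, rd j 0 = w₀ + j * z
  rdm : ∀ j ≤ M, ∀ s < nb, rd j s ≤ rd j (s + 1)
  rda : ∀ j ≤ M, ∀ s ≤ nb, rd j s ≤ a₀
  rdJ : ∀ j ≤ M, ∀ s ≤ nb, rd j s + Cy * x ≤ J
  gm : ∀ j ≤ M, ∀ s < nb, ∀ k ≤ l, gB j s k ≤ gB j (s + 1) k
  gC : ∀ j ≤ M, ∀ s ≤ nb, ∀ k ≤ l, Cy * x ≤ gB j s k
  gJ : ∀ j ≤ M, ∀ s < nb, ∀ k < l, gB j (s + 1) k + eB j (s + 1) + y₀ + Cy * x ≤ J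
  nlp : ∀ j ≤ M, ∀ s < nb, ∀ k < l, ∀ k' < k, nlp (gB j (s + 1)) k' k ≤ y₀

theorem BlN.blD {m J : ℕ} {F : Fam m J} {c : ℕ → Fin m} {l K M nb a₀ w₀ z x Cy y₀ : ℕ}
    {rd : ℕ → ℕ → ℕ} {eB : ℕ → ℕ → ℕ} {gB : ℕ → ℕ → ℕ → ℕ}
    {Bq : ℕ → ℕ → PtT F → ℕ → MvPolynomial (Option (Fin m)) ℝ}
    {Hq : ℕ → ℕ → LnT F → ℕ → MvPolynomial (Option (Fin m)) ℝ} {B : F.Ω → Prop}
    (h : BlN l M nb J a₀ w₀ z x Cy y₀ rd eB gB)
    (hc : ∀ j ≤ M, ∀ s ≤ nb, ChOK F c (l + 1) (fun _ => K) (rd j s) (rd j s) (eB j s) (gB j s) B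
      (Bq j s) (Hq j s)) :
    BlD F c l K M nb a₀ w₀ z x Cy y₀ rd eB gB Bq Hq B :=
  ⟨hc, h.rd0, h.rdm, h.rda, h.rdJ, h.gm, h.gC, h.gJ, h.nlp⟩

/-- The radii of the balls. -/
def rdS (w₀ z d x j s : ℕ) : ℕ := w₀ + j * z + if s = 0 then 0 else s * d + x

/-- **The real numbers at a window** `g`, `r`: mesh `ζ`, steps `δ`; `D k`: the diagonals, `Sl k`
their slopes, `b` the sides of the grid, `β` the sides of the chain with gain, radius `a`; `Cb`
bounds all the constants. -/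
structure StN (l M nb : ℕ) (D : ℕ → ℝ → ℝ) (Sl : ℕ → ℝ) (g r ζ δ T Cb a : ℝ)
    (b : ℕ → ℕ → ℕ → ℝ) (β : ℕ → ℝ) : Prop where
  r0 : 0 < r
  δ0 : 0 < δ
  ζδ : 16 * δ ≤ ζ
  gr : r ≤ g
  g1 : g + 2 * r ≤ 1
  T0 : 0 ≤ T
  C0 : 8 ≤ Cb
  big : (T + 2) * ((M + 8 * Cb) * ζ) ≤ r / 64
  low : ∀ k ≤ l, g ≤ D k g
  aff : ∀ k ≤ l, ∀ w, |w - g| ≤ r → |D k w - D k g - Sl k * (w - g)| ≤ δ / 16
  slp : ∀ k ≤ l, ∀ w w', g ≤ w → w ≤ w' → w' ≤ g + r → D k w + (w' - w) ≤ D k w'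
  Sl0 : ∀ k ≤ l, 0 ≤ Sl k ∧ Sl k ≤ T
  Sl2 : ∀ k < l, Sl k ≤ 2
  Sls : ∀ k ≤ l, ∀ k' < k, Sl k' ≤ Sl k
  srt : ∀ k < l, ∀ k' < k, D k' g ≤ D k g
  bup : ∀ i ≤ M, ∀ j ≤ M, ∀ k ≤ l, b i j k ≤ D k (g + j * ζ) + (r + (i * ζ - j * ζ))
  blo : ∀ i ≤ M, ∀ j ≤ M, ∀ k ≤ l, D k (g + j * ζ) + (r + (i * ζ - j * ζ)) - δ ≤ b i j k
  nb1 : a + 2 * δ ≤ g + nb * δ
  nb2 : nb * δ ≤ 27 / 64 * r + 4 * δ
  ag : g ≤ a
  βlo : ∀ k ≤ l, r / 4 ≤ β k
  βup : ∀ k ≤ l, β k ≤ D k a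
  βgn : D l g + r + r / 8 ≤ β l

/-- The centres of the balls. -/
theorem StN.pt {l M nb : ℕ} {D : ℕ → ℝ → ℝ} {Sl : ℕ → ℝ} {g r ζ δ T Cb a : ℝ}
    {b : ℕ → ℕ → ℕ → ℝ} {β : ℕ → ℝ} (h : StN l M nb D Sl g r ζ δ T Cb a b β) {j s : ℕ}
    (hjM : j ≤ M) (hsn : s ≤ nb) : g ≤ g + j * ζ ∧ g + j * ζ ≤ g + j * ζ + s * δ ∧
      g + j * ζ + s * δ ≤ g + r / 2 + r / 16 := by
  have δ0 := h.δ0
  have ζ0 : 0 < ζ := by linarith only [δ0, h.ζδ]
  have hM0 : (0 : ℝ) ≤ M := Nat.cast_nonneg M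
  have hMζ0 : 0 ≤ (M : ℝ) * ζ := by positivity
  have hC := h.C0
  have hCζ0 : 0 ≤ Cb * ζ := by positivity
  have hTM : 0 ≤ T * (M * ζ) := mul_nonneg h.T0 hMζ0
  have b1 : T * (M * ζ) + 2 * (M * ζ) + 8 * (Cb * ζ) * 2 ≤ r / 64 := by
    have h1 : 0 ≤ T * (Cb * ζ) := mul_nonneg h.T0 hCζ0
    have h2 : (T + 2) * ((M + 8 * Cb) * ζ) = T * (M * ζ) + 2 * (M * ζ) + 8 * (T * (Cb * ζ)) +
      8 * (Cb * ζ) * 2 := by ring
    linarith only [h.big, h1, h2]
  have hCδ : 16 * (Cb * δ) ≤ Cb * ζ := by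
    have := mul_le_mul_of_nonneg_left h.ζδ (by linarith only [hC] : 0 ≤ Cb)
    linarith only [this]
  have h8δ : 8 * δ ≤ Cb * δ := mul_le_mul_of_nonneg_right hC δ0.le
  have hj' : (j : ℝ) * ζ ≤ M * ζ := mul_le_mul_of_nonneg_right (by exact_mod_cast hjM) ζ0.le
  have hs' : (s : ℝ) * δ ≤ nb * δ := mul_le_mul_of_nonneg_right (by exact_mod_cast hsn) δ0.le
  have h0 : (0 : ℝ) ≤ j * ζ := by positivity
  have h1 : (0 : ℝ) ≤ s * δ := by positivity
  have h2 := h.nb2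
  refine ⟨by linarith only [h0], by linarith only [h1], ?_⟩
  linarith only [hj', hs', h2, b1, hTM, hCζ0, hCδ, h8δ, δ0, h.r0, hMζ0]

/-- **The numbers.** -/
theorem stg_num {l M nb Cy Wc Zc S : ℕ} {D : ℕ → ℝ → ℝ} {Sl : ℕ → ℝ} {g r ζ δ T Cb a : ℝ}
    {b : ℕ → ℕ → ℕ → ℝ} {β : ℕ → ℝ} (h : StN l M nb D Sl g r ζ δ T Cb a b β)
    (hCy : (Cy : ℝ) ≤ Cb) (hZ : (Zc : ℝ) ≤ Cb) (hS : (S : ℝ) ≤ Cb) (hW : T + 3 ≤ Wc) :
    ∃ J₁ : ℕ, ∀ J ≥ J₁, (∀ j ≤ M, ∀ s < nb,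
        (g + j * ζ + (s + 1 : ℕ) * δ) * J + up (16 * δ) J ≤
          (rdS (up g J) (up ζ J) (up δ J) (up (16 * δ) J) j (s + 1) : ℝ) ∧
        (rdS (up g J) (up ζ J) (up δ J) (up (16 * δ) J) j (s + 1) : ℝ) ≤
          (g + j * ζ + (s + 1 : ℕ) * δ) * J + up (16 * δ) J + (M + nb + 1 : ℕ)) ∧
      (∀ j ≤ M, ⌊a * J⌋₊ ≤ rdS (up g J) (up ζ J) (up δ J) (up (16 * δ) J) j nb) ∧
      (∀ k ≤ l, Cy * up (16 * δ) J ≤ ⌊β k * J⌋₊) ∧
      (∀ i ≤ M, ∀ j ≤ M, ⌊b i j l * J⌋₊ + Cy * up (16 * δ) J ≤ ⌊β l * J⌋₊) ∧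
      S * up (16 * δ) J ≤ ⌊β l * J⌋₊ ∧
      (∀ i ≤ M, ∀ j ≤ M, ⌊(D l (g + j * ζ) + (r + (i * ζ - j * ζ))) * J⌋₊ + ⌊r / 32 * J⌋₊ +
        S * up (16 * δ) J ≤ ⌊β l * J⌋₊) ∧
      ∀ (gB : ℕ → ℕ → ℕ → ℕ) (eB : ℕ → ℕ → ℕ),
      (∀ j ≤ M, ∀ s ≤ nb, ∀ k ≤ l, (D k (g + j * ζ + s * δ) - δ) * J ≤ gB j s k ∧
        (gB j s k : ℝ) ≤ D k (g + j * ζ + s * δ) * J) →
      (∀ j ≤ M, ∀ s < nb, ∀ k ≤ l, (D k (g + j * ζ + (s + 1 : ℕ) * δ) - δ / 2) * J ≤
        gB j (s + 1) k) →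
      (∀ j ≤ M, ∀ s < nb, ∀ k ≤ l,
        D k (g + j * ζ + (s + 1 : ℕ) * δ) * J + eB j (s + 1) + r / 4 * J ≤ J) →
      BlN l M nb J (up (g + r) J) (up g J) (up ζ J) (up (16 * δ) J) Cy ⌊r / 16 * J⌋₊
        (rdS (up g J) (up ζ J) (up δ J) (up (16 * δ) J)) eB gB ∧
      BlG l M nb (up (g + r) J) (up ζ J) (up (16 * δ) J) Wc Zc
        (rdS (up g J) (up ζ J) (up δ J) (up (16 * δ) J)) gB (fun i j k => ⌊b i j k * J⌋₊) ∧
      (∀ j ≤ M, ∀ k ≤ l, ⌊β k * J⌋₊ ≤ gB j nb k) := by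
  have r0 := h.r0
  have δ0 := h.δ0
  have hζδ := h.ζδ
  have hT := h.T0
  have hC := h.C0
  have hM0 : (0 : ℝ) ≤ M := Nat.cast_nonneg M
  have hnb0 : (0 : ℝ) ≤ nb := Nat.cast_nonneg nb
  have ζ0 : 0 < ζ := by linarith only [δ0, hζδ]
  have gr := h.gr
  have g1 := h.g1
  -- sizes
  have hMζ0 : 0 ≤ (M : ℝ) * ζ := by positivity
  have hCζ0 : 0 ≤ Cb * ζ := by positivity
  have big := h.big
  have b1 : T * (M * ζ) + 2 * (M * ζ) + 8 * (Cb * ζ) * 2 ≤ r / 64 := by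
    have h1 : 0 ≤ T * (Cb * ζ) := by positivity
    have h2 : (T + 2) * ((M + 8 * Cb) * ζ) = T * (M * ζ) + 2 * (M * ζ) + 8 * (T * (Cb * ζ)) +
      8 * (Cb * ζ) * 2 := by ring
    linarith only [big, h1, h2]
  have hTM : 0 ≤ T * (M * ζ) := by positivity
  have hCδ : 16 * (Cb * δ) ≤ Cb * ζ := by
    have := mul_le_mul_of_nonneg_left hζδ (by linarith only [hC] : 0 ≤ Cb)
    linarith only [this]
  have h8δ : 8 * δ ≤ Cb * δ := mul_le_mul_of_nonneg_right hC δ0.le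
  obtain ⟨Cc, hCc⟩ : ∃ Cc : ℝ, Cc = M + nb + Cb + 8 := ⟨_, rfl⟩
  obtain ⟨J₁, hJ₁⟩ := exists_nat_ge (64 * Cc / δ)
  refine ⟨max J₁ 1, fun J hJ => ?_⟩
  have j1 : 64 * Cc ≤ J * δ := by
    have := hJ₁.trans (show (J₁ : ℝ) ≤ J by exact_mod_cast (le_max_left _ _).trans hJ)
    rwa [div_le_iff₀ δ0] at this
  have hJ0 : (0 : ℝ) < J := by exact_mod_cast (le_max_right _ _).trans hJ
  obtain ⟨x, hx⟩ : ∃ x, x = up (16 * δ) J := ⟨_, rfl⟩
  obtain ⟨z, hz⟩ : ∃ z, z = up ζ J := ⟨_, rfl⟩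
  obtain ⟨d, hd⟩ : ∃ d, d = up δ J := ⟨_, rfl⟩
  obtain ⟨w₀, hw₀⟩ : ∃ w₀, w₀ = up g J := ⟨_, rfl⟩
  obtain ⟨a₀, ha₀⟩ : ∃ a₀, a₀ = up (g + r) J := ⟨_, rfl⟩
  rw [← hx, ← hz, ← hd, ← hw₀, ← ha₀]
  have x1 : 16 * (δ * J) ≤ x := by
    have := up_ge (16 * δ) J
    rw [hx]
    linarith only [this]
  have x2 : (x : ℝ) ≤ 16 * (δ * J) + 1 := by
    have := up_le (show 0 ≤ 16 * δ by positivity) J
    rw [hx]
    linarith only [this]
  have z1 : ζ * J ≤ z := by rw [hz]; exact up_ge ζ J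
  have z2 : (z : ℝ) ≤ ζ * J + 1 := by rw [hz]; exact up_le ζ0.le J
  have d1 : δ * J ≤ d := by rw [hd]; exact up_ge δ J
  have d2 : (d : ℝ) ≤ δ * J + 1 := by rw [hd]; exact up_le δ0.le J
  have w1 : g * J ≤ w₀ := by rw [hw₀]; exact up_ge g J
  have w2 : (w₀ : ℝ) ≤ g * J + 1 := by rw [hw₀]; exact up_le (by linarith only [r0, gr]) J
  have a1 : (g + r) * J ≤ a₀ := by rw [ha₀]; exact up_ge _ J
  obtain ⟨Δ, hΔ⟩ : ∃ Δ, Δ = δ * J := ⟨_, rfl⟩
  obtain ⟨Rr, hRr⟩ : ∃ Rr, Rr = r * J := ⟨_, rfl⟩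
  have hΔ0 : 0 < Δ := by rw [hΔ]; positivity
  have hRr0 : 0 < Rr := by rw [hRr]; positivity
  have cst : 64 * (M + nb + Cb + 8) ≤ Δ := by
    rw [hΔ, mul_comm δ, ← hCc]
    exact j1
  have hmul : ∀ {u v : ℝ}, u ≤ v → u * J ≤ v * J := fun h => mul_le_mul_of_nonneg_right h hJ0.le
  have b1J := hmul b1
  have hCδJ := hmul hCδ
  have h8δJ := hmul h8δ
  have hζδJ := hmul hζδ
  have hCx : ∀ {C : ℕ}, (C : ℝ) ≤ Cb → (C : ℝ) * x ≤ Cb * (16 * Δ + 1) := fun {C} hC' => by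
    have h1 : (C : ℝ) * x ≤ Cb * x := mul_le_mul_of_nonneg_right hC' (Nat.cast_nonneg x)
    have h2 : Cb * (x : ℝ) ≤ Cb * (16 * Δ + 1) := by
      rw [hΔ]
      exact mul_le_mul_of_nonneg_left x2 (by linarith only [hC])
    linarith only [h1, h2]
  -- `Cb x` is small
  have hsm : Cb * (16 * Δ + 1) ≤ Rr / 256 := by
    have h1 : Cb * (16 * Δ + 1) = 16 * (Cb * δ) * J + Cb := by rw [hΔ]; ring
    have h2 : 16 * (Cb * ζ) * J ≤ Rr / 64 - T * (M * ζ) * J - 2 * (M * ζ) * J := by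
      rw [hRr]
      linarith only [b1J]
    have h3 : 0 ≤ T * (M * ζ) * J := by positivity
    have h4 : 0 ≤ M * ζ * J := by positivity
    have h5 : Cb ≤ Δ := by linarith only [cst, hM0, hnb0, hC]
    have h6 : 8 * Δ ≤ Cb * δ * J := by rw [hΔ]; linarith only [h8δJ]
    linarith only [h1, h2, h3, h4, h5, h6, hCδJ, hΔ0]
  have hMJ : M * ζ * J ≤ Rr / 128 := by
    have h3 : 0 ≤ T * (M * ζ) * J := by positivity
    have h4 : 0 ≤ Cb * ζ * J := by positivity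
    rw [hRr]
    linarith only [b1J, h3, h4]
  have hTMJ : T * (M * ζ) * J ≤ Rr / 64 := by
    have h3 : 0 ≤ (M * ζ) * J := by positivity
    have h4 : 0 ≤ Cb * ζ * J := by positivity
    rw [hRr]
    linarith only [b1J, h3, h4]
  have hΔR : 256 * Δ ≤ Rr / 16 := by nlinarith only [hsm, hC, hΔ0]
  have hnbJ : nb * Δ ≤ 27 / 64 * Rr + 4 * Δ := by
    have := hmul h.nb2
    rw [hΔ, hRr]
    linarith only [this]
  -- the grid indices
  have hj : ∀ j ≤ M, (0 : ℝ) ≤ j * ζ * J ∧ j * ζ * J ≤ M * ζ * J ∧ j * ζ * J ≤ (j * z : ℝ) ∧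
      (j * z : ℝ) ≤ j * ζ * J + M := fun j hj => by
    have hj' : (j : ℝ) ≤ M := by exact_mod_cast hj
    have hj0 : (0 : ℝ) ≤ j := Nat.cast_nonneg j
    have h1 := mul_le_mul_of_nonneg_left z1 hj0
    have h2 := mul_le_mul_of_nonneg_left z2 hj0
    refine ⟨by positivity, ?_, by linarith only [h1], by linarith only [h2, hj']⟩
    exact mul_le_mul_of_nonneg_right (mul_le_mul_of_nonneg_right hj' ζ0.le) hJ0.le
  have hs : ∀ s ≤ nb, (0 : ℝ) ≤ s * Δ ∧ s * Δ ≤ nb * Δ ∧ s * Δ ≤ (s * d : ℝ) ∧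
      (s * d : ℝ) ≤ s * Δ + nb := fun s hs => by
    have hs' : (s : ℝ) ≤ nb := by exact_mod_cast hs
    have hs0 : (0 : ℝ) ≤ s := Nat.cast_nonneg s
    rw [hΔ]
    have h1 := mul_le_mul_of_nonneg_left d1 hs0
    have h2 := mul_le_mul_of_nonneg_left d2 hs0
    refine ⟨by positivity, ?_, by linarith only [h1], by linarith only [h2, hs']⟩
    exact mul_le_mul_of_nonneg_right hs' (by positivity)
  have hrd1 : ∀ j s, (rdS w₀ z d x j (s + 1) : ℝ) = w₀ + j * z + (s + 1 : ℕ) * d + x := by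
    intro j s
    unfold rdS
    rw [if_neg (Nat.succ_ne_zero s)]
    push_cast
    ring
  have hrd0 : ∀ j, rdS w₀ z d x j 0 = w₀ + j * z := fun j => by
    unfold rdS
    rw [if_pos rfl]
    omega
  -- the points
  have hzr : ∀ j ≤ M, ∀ s ≤ nb, g ≤ g + j * ζ ∧ g + j * ζ ≤ g + j * ζ + s * δ ∧
      g + j * ζ + s * δ ≤ g + r := by
    intro j hjM s hsn
    have hj' : (j : ℝ) * ζ ≤ M * ζ := mul_le_mul_of_nonneg_right (by exact_mod_cast hjM) ζ0.le
    have hs' : (s : ℝ) * δ ≤ nb * δ := mul_le_mul_of_nonneg_right (by exact_mod_cast hsn) δ0.le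
    have h0 : (0 : ℝ) ≤ j * ζ := by positivity
    have h1 : (0 : ℝ) ≤ s * δ := by positivity
    have h2 := h.nb2
    refine ⟨by linarith only [h0], by linarith only [h1], ?_⟩
    linarith only [hj', hs', h2, b1, hTM, hCζ0, hCδ, h8δ, δ0, r0, hMζ0]
  have hgB0 : ∀ k ≤ l, ∀ j ≤ M, ∀ s ≤ nb, D k (g + j * ζ) + s * δ ≤ D k (g + j * ζ + s * δ) ∧
      g ≤ D k (g + j * ζ) ∧
      |D k (g + j * ζ + s * δ) - D k (g + j * ζ) - Sl k * (s * δ)| ≤ δ / 8 := by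
    intro k hk j hjM s hsn
    obtain ⟨e1, e2, e3⟩ := hzr j hjM s hsn
    have h1 := h.slp k hk _ _ e1 e2 e3
    have h2 := h.slp k hk g _ le_rfl e1 (e2.trans e3)
    have h3 := h.low k hk
    have h4 := abs_le.1 (h.aff k hk (g + j * ζ) (by rw [abs_le]; constructor <;> linarith only [e1, e2, e3, r0]))
    have h5 := abs_le.1 (h.aff k hk (g + j * ζ + s * δ)
      (by rw [abs_le]; constructor <;> linarith only [e1, e2, e3, r0]))
    refine ⟨by linarith only [h1], by linarith only [h2, h3, e1], ?_⟩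
    have h6 : Sl k * (g + j * ζ + s * δ - g) - Sl k * (g + j * ζ - g) = Sl k * (s * δ) := by ring
    rw [abs_le]
    constructor
    · linarith only [h4.1, h4.2, h5.1, h5.2, h6]
    · linarith only [h4.1, h4.2, h5.1, h5.2, h6]
  have hfl : ∀ {u : ℝ}, 0 ≤ u → u * J - 1 ≤ (⌊u * J⌋₊ : ℝ) := fun {u} _ => by
    have := Nat.lt_floor_add_one (u * (J : ℝ))
    linarith only [this]
  have hbf : ∀ i ≤ M, ∀ j ≤ M, ∀ k ≤ l, 0 ≤ b i j k := by
    intro i hi j hjM k hk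
    have h1 := h.blo i hi j hjM k hk
    have h2 := (hgB0 k hk j hjM 0 (Nat.zero_le _)).2.1
    have h3 : (j : ℝ) * ζ ≤ M * ζ := mul_le_mul_of_nonneg_right (by exact_mod_cast hjM) ζ0.le
    have h4 : (0 : ℝ) ≤ i * ζ := by positivity
    linarith only [h1, h2, h3, h4, b1, hTM, hCζ0, hCδ, h8δ, δ0, r0, hMζ0, gr]
  have hbu : ∀ i ≤ M, ∀ j ≤ M, ∀ k ≤ l, (⌊b i j k * J⌋₊ : ℝ) ≤
      D k (g + j * ζ) * J + (Rr + (i * ζ * J - j * ζ * J)) := by
    intro i hi j hjM k hk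
    have h1 := hmul (h.bup i hi j hjM k hk)
    have h2 := Nat.floor_le (mul_nonneg (hbf i hi j hjM k hk) hJ0.le)
    rw [hRr]
    linarith only [h1, h2]
  have hbl : ∀ i ≤ M, ∀ j ≤ M, ∀ k ≤ l, D k (g + j * ζ) * J + (Rr + (i * ζ * J - j * ζ * J)) -
      Δ - 1 ≤ (⌊b i j k * J⌋₊ : ℝ) := by
    intro i hi j hjM k hk
    have h1 := hmul (h.blo i hi j hjM k hk)
    have h2 := hfl (hbf i hi j hjM k hk)
    rw [hRr, hΔ]
    linarith only [h1, h2]
  have hβ0 : ∀ k ≤ l, 0 ≤ β k := fun k hk => by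
    have := h.βlo k hk
    linarith only [this, r0]
  have hDl : ∀ j ≤ M, D l (g + j * ζ) ≤ D l g + T * (M * ζ) + δ / 16 := by
    intro j hjM
    obtain ⟨e1, e2, e3⟩ := hzr j hjM 0 (Nat.zero_le _)
    have h4 := abs_le.1 (h.aff l le_rfl (g + j * ζ) (by
      rw [abs_le]; constructor <;> linarith only [e1, e2, e3, r0]))
    have h5 : Sl l * (j * ζ) ≤ T * (M * ζ) := by
      have hj' : (j : ℝ) * ζ ≤ M * ζ := mul_le_mul_of_nonneg_right (by exact_mod_cast hjM) ζ0.le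
      exact mul_le_mul (h.Sl0 l le_rfl).2 hj' (by positivity) hT
    have h6 : Sl l * (g + j * ζ - g) = Sl l * (j * ζ) := by ring
    linarith only [h4.2, h5, h6]
  have hβg := hmul h.βgn
  have hβf := hfl (hβ0 l le_rfl)
  refine ⟨fun j hjM s hsn => ?_, fun j hjM => ?_, fun k hk => ?_, fun i hi j hjM => ?_, ?_,
    fun i hi j hjM => ?_, fun gB eB hg1 hg2 hg3 => ⟨?_, ?_, fun j hjM k hk => ?_⟩⟩
  · -- the radii
    rw [hrd1 j s]
    have e1 := hj j hjM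
    have e2 := hs (s + 1) hsn
    have e3 : (g + j * ζ + (s + 1 : ℕ) * δ) * J = g * J + j * ζ * J + (s + 1 : ℕ) * Δ := by
      rw [hΔ]; ring
    rw [e3]
    refine ⟨?_, ?_⟩
    · linarith only [e1.2.2.1, e2.2.2.1, w1]
    · push_cast at e2 ⊢
      linarith only [e1.2.2.2, e2.2.2.2, w2]
  · -- the radius of the chain with gain
    have hnbp : 1 ≤ nb := by
      by_contra h0
      have h1 : nb = 0 := by omega
      have h2 := h.nb1
      rw [h1, Nat.cast_zero, zero_mul] at h2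
      have h3 := h.ag
      linarith only [h2, h3, δ0]
    obtain ⟨s, rfl⟩ : ∃ s, nb = s + 1 := ⟨nb - 1, by omega⟩
    refine Nat.floor_le_of_le ?_
    rw [hrd1 j s]
    have e1 := hj j hjM
    have e2 := hs (s + 1) le_rfl
    have e3 := hmul h.nb1
    have e4 : (0 : ℝ) ≤ x := Nat.cast_nonneg x
    rw [add_mul, add_mul, mul_assoc ((s + 1 : ℕ) : ℝ), ← hΔ] at e3
    linarith only [e1.1, e1.2.2.1, e2.2.2.1, w1, e3, e4, δ0, hJ0, mul_pos δ0 hJ0]
  · refine Nat.le_floor ?_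
    push_cast
    have h1 := hCx hCy
    have h2 := hmul (h.βlo k hk)
    have h3 : r / 4 * J = Rr / 4 := by rw [hRr]; ring
    rw [h3] at h2
    linarith only [h1, h2, hsm, hRr0]
  · have h1 : ((⌊b i j l * J⌋₊ + Cy * x : ℕ) : ℝ) ≤ (⌊β l * J⌋₊ : ℝ) := by
      push_cast
      have h2 := hbu i hi j hjM l le_rfl
      have h3 := hmul (hDl j hjM)
      have h4 := hj i hi
      have h5 := hj j hjM
      have h6 := hCx hCy
      have h7 : (D l g + r + r / 8) * J = D l g * J + Rr + Rr / 8 := by rw [hRr]; ring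
      have h8 : (D l g + T * (M * ζ) + δ / 16) * J = D l g * J + T * (M * ζ) * J + Δ / 16 := by
        rw [hΔ]; ring
      rw [h7] at hβg
      rw [h8] at h3
      linarith only [h2, h3, h4.2.1, h5.1, h6, hβg, hβf, hsm, hTMJ, hMJ, hΔR, hΔ0, cst, hC, hM0,
        hnb0, hRr0]
    exact_mod_cast h1
  · refine Nat.le_floor ?_
    push_cast
    have h1 := hCx hS
    have h2 := hmul (h.βlo l le_rfl)
    have h3 : r / 4 * J = Rr / 4 := by rw [hRr]; ring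
    rw [h3] at h2
    linarith only [h1, h2, hsm, hRr0]
  · have h1 : ((⌊(D l (g + j * ζ) + (r + (i * ζ - j * ζ))) * J⌋₊ + ⌊r / 32 * J⌋₊ + S * x : ℕ) : ℝ)
        ≤ (⌊β l * J⌋₊ : ℝ) := by
      push_cast
      have k1 : 0 ≤ D l (g + j * ζ) + (r + (i * ζ - j * ζ)) := by
        have := h.bup i hi j hjM l le_rfl
        have := hbf i hi j hjM l le_rfl
        linarith
      have h2 := Nat.floor_le (mul_nonneg k1 hJ0.le)
      have h2' := Nat.floor_le (show 0 ≤ r / 32 * (J : ℝ) by positivity)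
      have h3 := hmul (hDl j hjM)
      have h4 := hj i hi
      have h5 := hj j hjM
      have h6 := hCx hS
      have h7 : (D l g + r + r / 8) * J = D l g * J + Rr + Rr / 8 := by rw [hRr]; ring
      have h8 : (D l g + T * (M * ζ) + δ / 16) * J = D l g * J + T * (M * ζ) * J + Δ / 16 := by
        rw [hΔ]; ring
      have h9 : (D l (g + j * ζ) + (r + (i * ζ - j * ζ))) * J = D l (g + j * ζ) * J + (Rr +
        (i * ζ * J - j * ζ * J)) := by rw [hRr]; ring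
      have h10 : r / 32 * J = Rr / 32 := by rw [hRr]; ring
      rw [h7] at hβg
      rw [h8] at h3
      rw [h9] at h2
      rw [h10] at h2'
      rw [h9, h10]
      linarith only [h2, h2', h3, h4.2.1, h5.1, h6, hβg, hβf, hsm, hTMJ, hMJ, hΔR, hΔ0, cst, hC,
        hM0, hnb0, hRr0]
    exact_mod_cast h1
  · -- the numbers of the balls
    have hrdu : ∀ j ≤ M, ∀ s ≤ nb, (rdS w₀ z d x j s : ℝ) ≤ g * J + Rr / 2 + Rr / 16 := by
      intro j hjM s hsn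
      have e1 := hj j hjM
      rcases Nat.eq_zero_or_pos s with rfl | hs0
      · rw [hrd0 j]
        push_cast
        linarith only [e1.2.2.2, e1.2.1, w2, hMJ, cst, hΔR, hΔ0, hRr0, hnb0, hC, hM0]
      · obtain ⟨s, rfl⟩ : ∃ s', s = s' + 1 := ⟨s - 1, by omega⟩
        rw [hrd1 j s]
        have e2 := hs (s + 1) hsn
        rw [hΔ] at e2
        rw [← hΔ] at e2
        have x2' : (x : ℝ) ≤ 16 * Δ + 1 := by rw [hΔ]; exact x2
        linarith only [e1.2.2.2, e1.2.1, e2.2.2.2, e2.2.1, w2, x2', hnbJ, hMJ, cst, hΔR, hΔ0, hRr0,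
          hnb0, hC, hM0]
    refine ⟨fun j _ => hrd0 j, fun j hjM s hsn => ?_, fun j hjM s hsn => ?_, fun j hjM s hsn => ?_,
      fun j hjM s hsn k hk => ?_, fun j hjM s hsn k hk => ?_, fun j hjM s hsn k hk => ?_,
      fun j hjM s hsn k hk k' hk' => ?_⟩
    · unfold rdS
      rw [if_neg (Nat.succ_ne_zero s)]
      split_ifs with h0
      · omega
      · have : (s + 1) * d = s * d + d := by ring
        omega
    · have h1 := hrdu j hjM s hsn
      have h2 : (rdS w₀ z d x j s : ℝ) ≤ (a₀ : ℝ) := by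
        have h3 : (g + r) * J = g * J + Rr := by rw [hRr]; ring
        rw [h3] at a1
        linarith only [h1, a1, hRr0]
      exact_mod_cast h2
    · have h1 := hrdu j hjM s hsn
      have h2 : ((rdS w₀ z d x j s + Cy * x : ℕ) : ℝ) ≤ (J : ℝ) := by
        push_cast
        have h3 := hmul g1
        have h4 : (g + 2 * r) * J = g * J + 2 * Rr := by rw [hRr]; ring
        rw [h4, one_mul] at h3
        have h5 := hCx hCy
        linarith only [h1, h3, h5, hsm, hRr0]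
      exact_mod_cast h2
    · have h1 := (hg1 j hjM s (by omega) k hk).2
      have h2 := hg2 j hjM s hsn k hk
      have h3 : (gB j s k : ℝ) ≤ (gB j (s + 1) k : ℝ) := by
        obtain ⟨e1, e2, -⟩ := hzr j hjM s (by omega)
        obtain ⟨-, -, e3⟩ := hzr j hjM (s + 1) hsn
        have e4 : g + j * ζ + (s + 1 : ℕ) * δ = g + j * ζ + s * δ + δ := by push_cast; ring
        rw [e4] at e3 h2
        have h4 := hmul (h.slp k hk _ _ (e1.trans e2) (by linarith only [δ0]) e3)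
        have h5 : (g + j * ζ + s * δ + δ - (g + j * ζ + s * δ)) * J = Δ := by rw [hΔ]; ring
        rw [add_mul, h5] at h4
        have h6 : (D k (g + j * ζ + s * δ + δ) - δ / 2) * J = D k (g + j * ζ + s * δ + δ) * J -
          Δ / 2 := by rw [hΔ]; ring
        rw [h6] at h2
        linarith only [h1, h2, h4, hΔ0]
      exact_mod_cast h3
    · have h1 := (hg1 j hjM s hsn k hk).1
      have h3 : ((Cy * x : ℕ) : ℝ) ≤ (gB j s k : ℝ) := by
        push_cast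
        obtain ⟨e1, e2, -⟩ := hgB0 k hk j hjM s hsn
        have h4 := hmul (show r ≤ D k (g + j * ζ + s * δ) by
          have : (0 : ℝ) ≤ s * δ := by positivity
          linarith only [e1, e2, this, gr])
        have h5 := hCx hCy
        rw [sub_mul, ← hΔ] at h1
        rw [← hRr] at h4
        linarith only [h1, h4, h5, hsm, hΔR, hRr0, hΔ0]
      exact_mod_cast h3
    · have h1 := (hg1 j hjM (s + 1) hsn k hk.le).2
      have h2 := hg3 j hjM s hsn k hk.le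
      have h3 : ((gB j (s + 1) k + eB j (s + 1) + ⌊r / 16 * J⌋₊ + Cy * x : ℕ) : ℝ) ≤ (J : ℝ) := by
        push_cast at h1 h2 ⊢
        have h5 := hCx hCy
        have h6 := Nat.floor_le (show 0 ≤ r / 16 * (J : ℝ) by positivity)
        have h7 : r / 16 * J = Rr / 16 := by rw [hRr]; ring
        have h8 : r / 4 * J = Rr / 4 := by rw [hRr]; ring
        rw [h8] at h2
        rw [h7] at h6
        rw [h7]
        linarith only [h1, h2, h5, h6, hsm, hRr0]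
      exact_mod_cast h3
    · -- the sides are sorted
      have key : ∀ k'' ∈ Finset.Icc k' k, gB j (s + 1) k'' ≤ gB j (s + 1) k + ⌊r / 16 * J⌋₊ := by
        intro k'' hk''
        rw [Finset.mem_Icc] at hk''
        rcases hk''.2.lt_or_eq with h0 | h0
        · have h1 := (hg1 j hjM (s + 1) hsn k'' (by omega)).2
          have h2 := (hg1 j hjM (s + 1) hsn k hk.le).1
          obtain ⟨e1, e2, e3⟩ := hzr j hjM (s + 1) hsn
          obtain ⟨zz, hzz⟩ : ∃ zz, zz = g + j * ζ + (s + 1 : ℕ) * δ := ⟨_, rfl⟩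
          rw [← hzz] at h1 h2 e2 e3
          have hab : |zz - g| ≤ r := by
            rw [abs_le]; constructor <;> linarith only [e1, e2, e3, r0]
          have h4 := abs_le.1 (h.aff k'' (by omega) zz hab)
          have h5 := abs_le.1 (h.aff k (by omega) zz hab)
          have h6 := h.srt k hk k'' h0
          have h7 : Sl k'' * (zz - g) ≤ Sl k * (zz - g) :=
            mul_le_mul_of_nonneg_right (h.Sls k hk.le k'' h0) (by linarith only [e1, e2])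
          have h8 := hmul (show D k'' zz ≤ D k zz + δ / 8 by
            linarith only [h4.2, h5.1, h6, h7])
          have h9 : ((gB j (s + 1) k'' : ℕ) : ℝ) ≤ ((gB j (s + 1) k + ⌊r / 16 * J⌋₊ : ℕ) : ℝ) := by
            push_cast
            have h10 := hfl (show 0 ≤ r / 16 by positivity)
            have h11 : r / 16 * J = Rr / 16 := by rw [hRr]; ring
            rw [h11] at h10
            rw [sub_mul, ← hΔ] at h2
            have h12 : (D k zz + δ / 8) * J = D k zz * J + Δ / 8 := by rw [hΔ]; ring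
            rw [h12] at h8
            rw [h11]
            linarith only [h1, h2, h8, h10, hΔR, hRr0, hΔ0, cst, hM0, hnb0, hC]
          exact_mod_cast h9
        · rw [h0]
          omega
      have h1 : (Finset.Icc k' k).sup (gB j (s + 1)) ≤ gB j (s + 1) k + ⌊r / 16 * J⌋₊ :=
        Finset.sup_le key
      show (Finset.Icc k' k).sup (gB j (s + 1)) - gB j (s + 1) k ≤ _
      omega
  · -- the numbers against the grid
    refine ⟨fun i hi j hjM s hsn k hk => ?_, fun i hi j hjM s hsn k hk k' hk' => ?_,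
      fun i hi j hjM s hsn k hk => ?_⟩
    · have h1 : ((⌊b i j k * J⌋₊ + rdS w₀ z d x j (s + 1) : ℕ) : ℝ) ≤
          ((gB j s k + (a₀ + i * z) + Wc * x : ℕ) : ℝ) := by
        push_cast
        rw [hrd1 j s]
        have h2 := hbu i hi j hjM k hk
        have h3 := (hg1 j hjM s (by omega) k hk).1
        obtain ⟨e1, -, -⟩ := hgB0 k hk j hjM s (by omega)
        have e1' := hmul e1
        rw [add_mul, mul_assoc (s : ℝ), ← hΔ] at e1'
        rw [sub_mul, ← hΔ] at h3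
        have h4 := hj i hi
        have h5 := hj j hjM
        have h6 := hs (s + 1) hsn
        have h7 : (g + r) * J = g * J + Rr := by rw [hRr]; ring
        rw [h7] at a1
        have h8 : (T + 3) * x ≤ Wc * x := mul_le_mul_of_nonneg_right hW (Nat.cast_nonneg x)
        have h9 : 0 ≤ T * (x : ℝ) := mul_nonneg hT (Nat.cast_nonneg x)
        have x1' : 16 * Δ ≤ (x : ℝ) := by rw [hΔ]; exact x1
        push_cast at h6 ⊢
        linarith only [h2, h3, e1', h4.2.2.1, h5.2.2.2, h6.2.2.2, w2, a1, h8, h9, x1', cst, hΔ0,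
          hM0, hnb0, hC]
      exact_mod_cast h1
    · have h1 : ((⌊b i j k * J⌋₊ + gB j (s + 1) k' : ℕ) : ℝ) ≤
          ((gB j s k + ⌊b i j k' * J⌋₊ + Wc * x : ℕ) : ℝ) := by
        push_cast
        have h2 := hbu i hi j hjM k hk
        have h2' := hbl i hi j hjM k' (by omega)
        have h3 := (hg1 j hjM s (by omega) k hk).1
        have h3' := (hg1 j hjM (s + 1) hsn k' (by omega)).2
        have e1 := abs_le.1 (hgB0 k hk j hjM s (by omega)).2.2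
        have e2 := abs_le.1 (hgB0 k' (by omega) j hjM (s + 1) hsn).2.2
        rw [sub_mul, ← hΔ] at h3
        have e3 : Sl k' * ((s + 1 : ℕ) * δ) ≤ Sl k * (s * δ) + T * δ := by
          have h4 : Sl k' * (s * δ) ≤ Sl k * (s * δ) :=
            mul_le_mul_of_nonneg_right (h.Sls k hk k' hk') (by positivity)
          have h5 : Sl k' * δ ≤ T * δ := mul_le_mul_of_nonneg_right (h.Sl0 k' (by omega)).2 δ0.le
          push_cast
          linarith only [h4, h5]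
        have e4 := hmul (show D k' (g + j * ζ + (s + 1 : ℕ) * δ) + D k (g + j * ζ) ≤
          D k (g + j * ζ + s * δ) + D k' (g + j * ζ) + T * δ + δ / 4 by
            linarith only [e1.1, e2.2, e3])
        have e5 : (D k (g + j * ζ + s * δ) + D k' (g + j * ζ) + T * δ + δ / 4) * J =
          D k (g + j * ζ + s * δ) * J + D k' (g + j * ζ) * J + T * Δ + Δ / 4 := by rw [hΔ]; ring
        rw [e5, add_mul] at e4
        have h8 : (T + 3) * x ≤ Wc * x := mul_le_mul_of_nonneg_right hW (Nat.cast_nonneg x)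
        have x1' : 16 * Δ ≤ (x : ℝ) := by rw [hΔ]; exact x1
        have h9 : T * (16 * Δ) ≤ T * (x : ℝ) := mul_le_mul_of_nonneg_left x1' hT
        have h10 : 0 ≤ T * Δ := mul_nonneg hT hΔ0.le
        linarith only [h2, h2', h3, h3', e4, h8, h9, h10, x1', cst, hΔ0, hM0, hnb0, hC]
      exact_mod_cast h1
    · have h1 : ((gB j (s + 1) k + Zc * x + 2 : ℕ) : ℝ) ≤ ((⌊b i j k * J⌋₊ : ℕ) : ℝ) := by
        push_cast
        have h2 := hbl i hi j hjM k hk.le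
        have h3 := (hg1 j hjM (s + 1) hsn k hk.le).2
        have e1 := abs_le.1 (hgB0 k hk.le j hjM (s + 1) hsn).2.2
        have e2 : Sl k * ((s + 1 : ℕ) * δ) ≤ 2 * (nb * δ) := by
          refine mul_le_mul (h.Sl2 k hk) ?_ (by positivity) (by norm_num)
          exact mul_le_mul_of_nonneg_right (by exact_mod_cast hsn) δ0.le
        have e3 := hmul (show D k (g + j * ζ + (s + 1 : ℕ) * δ) ≤ D k (g + j * ζ) +
          2 * (nb * δ) + δ / 8 by linarith only [e1.2, e2])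
        have e4 : (D k (g + j * ζ) + 2 * (nb * δ) + δ / 8) * J = D k (g + j * ζ) * J +
          2 * (nb * Δ) + Δ / 8 := by rw [hΔ]; ring
        rw [e4] at e3
        have h4 := hj i hi
        have h5 := hj j hjM
        have h6 := hCx hZ
        linarith only [h2, h3, e3, h4.1, h5.2.1, h6, hnbJ, hsm, hMJ, hΔR, hΔ0, cst, hRr0, hM0, hnb0,
          hC]
      exact_mod_cast h1
  · -- the sides of the chain with gain
    have h1 : (⌊β k * J⌋₊ : ℝ) ≤ (gB j nb k : ℝ) := by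
      have h2 := Nat.floor_le (mul_nonneg (hβ0 k hk) hJ0.le)
      have h3 := hmul (h.βup k hk)
      have h4 := (hg1 j hjM nb le_rfl k hk).1
      obtain ⟨-, e2, e3⟩ := hzr j hjM nb le_rfl
      have e4 : a + 2 * δ ≤ g + j * ζ + nb * δ := by
        have := h.nb1
        have h5 : (0 : ℝ) ≤ j * ζ := by positivity
        linarith only [this, h5]
      have h5 := hmul (h.slp k hk a _ h.ag (by linarith only [e4, δ0]) e3)
      have h6 : D k a * J + 2 * Δ ≤ (D k a + (g + j * ζ + nb * δ - a)) * J := by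
        rw [hΔ]
        have := hmul (show D k a + 2 * δ ≤ D k a + (g + j * ζ + nb * δ - a) by
          linarith only [e4])
        linarith only [this]
      rw [sub_mul, ← hΔ] at h4
      linarith only [h2, h3, h4, h5, h6, hΔ0]
    exact_mod_cast h1

end Pool.STG
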