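import Pool.Agent.H2.GEN.AttF

/-!
# The variation of a polynomial on a small box

`nbx_var`: a polynomial which is bounded on a natural box varies by a small amount on the box of
`2 ^ (-n)` times the sides around a point of the box; the sides are those of the heights over the
chain.
-/

set_option autoImplicit false

namespace Pool.STG

open Finset Real MvPolynomial
open Pool.Agent.H49.Ent Pool.Agent.H32.Dense Pool.STK Pool.KA Pool.KSAT Pool.K2S Pool.PB Pool.S6C
open Pool.GEN Pool.CHT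

/-- The variation of a polynomial of one variable on a small interval. -/
theorem shr_one (D : ℕ) : ∃ C : ℝ, 1 ≤ C ∧ ∀ (q : Polynomial ℝ) (S : ℝ) (n : ℕ),
    q.natDegree ≤ D → (∀ t ∈ Set.Icc (0 : ℝ) (2 ^ n), |q.eval t| ≤ S) →
      |q.eval 1 - q.eval 0| ≤ C * S / 2 ^ n := by
  obtain ⟨C, hC, h⟩ := Pool.Agent.H40.FR.unit_coef D
  refine ⟨(D + 1) * C, by nlinarith [(Nat.cast_nonneg D : (0 : ℝ) ≤ D)], ?_⟩
  intro q S n hq hS
  have h2n : (0 : ℝ) < 2 ^ n := by positivity
  have h2n1 : (1 : ℝ) ≤ 2 ^ n := one_le_pow₀ (by norm_num)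
  have hS0 : 0 ≤ S := le_trans (abs_nonneg _) (hS 0 ⟨le_rfl, h2n.le⟩)
  obtain ⟨f, hf⟩ : ∃ f : Polynomial ℝ, f = q.comp (Polynomial.C (2 ^ n) * Polynomial.X) :=
    ⟨_, rfl⟩
  have hfe : ∀ t, f.eval t = q.eval (2 ^ n * t) := by
    intro t
    rw [hf, Polynomial.eval_comp]
    simp only [Polynomial.eval_mul, Polynomial.eval_C, Polynomial.eval_X]
  have hfd : f.natDegree ≤ D := by
    rw [hf]
    refine Polynomial.natDegree_comp_le.trans ?_
    calc q.natDegree * (Polynomial.C (2 ^ n : ℝ) * Polynomial.X).natDegree ≤ D * 1 :=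
          Nat.mul_le_mul hq ((Polynomial.natDegree_C_mul_le _ _).trans Polynomial.natDegree_X_le)
      _ = D := mul_one _
  have hc := h f S hfd fun t ht => by
    rw [hfe]
    refine hS _ ⟨mul_nonneg h2n.le ht.1, ?_⟩
    calc (2 : ℝ) ^ n * t ≤ 2 ^ n * 1 := mul_le_mul_of_nonneg_left ht.2 h2n.le
      _ = _ := mul_one _
  have h1 : q.eval 1 = f.eval (1 / 2 ^ n) := by
    rw [hfe, mul_one_div, div_self h2n.ne']
  have h0 : q.eval 0 = f.eval 0 := by rw [hfe, mul_zero]
  rw [h1, h0, Polynomial.eval_eq_sum_range' (Nat.lt_succ_of_le hfd),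
    Polynomial.eval_eq_sum_range' (Nat.lt_succ_of_le hfd), ← Finset.sum_sub_distrib]
  refine (Finset.abs_sum_le_sum_abs _ _).trans ?_
  have h3 : ∀ j ∈ range (D + 1),
      |f.coeff j * (1 / 2 ^ n) ^ j - f.coeff j * 0 ^ j| ≤ C * S / 2 ^ n := by
    intro j _
    rcases Nat.eq_zero_or_pos j with rfl | hj
    · rw [pow_zero, pow_zero, sub_self, abs_zero]
      positivity
    · rw [zero_pow hj.ne', mul_zero, sub_zero, abs_mul,
        abs_of_pos (by positivity : (0 : ℝ) < (1 / 2 ^ n) ^ j)]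
      have h4 : ((1 : ℝ) / 2 ^ n) ^ j ≤ 1 / 2 ^ n := by
        calc ((1 : ℝ) / 2 ^ n) ^ j ≤ (1 / 2 ^ n) ^ 1 :=
              pow_le_pow_of_le_one (by positivity) (by rw [div_le_one h2n]; exact h2n1) hj
          _ = _ := pow_one _
      calc |f.coeff j| * (1 / 2 ^ n) ^ j ≤ C * S * (1 / 2 ^ n) :=
            mul_le_mul (hc j) h4 (by positivity) (by positivity)
        _ = _ := by ring
  refine (Finset.sum_le_sum h3).trans ?_
  rw [Finset.sum_const, card_range, nsmul_eq_mul]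
  refine le_of_eq ?_
  push_cast
  ring

/-- **The variation of a polynomial on a small box.** -/
theorem nbx_var (r : ℕ) (K : ℕ → ℕ) (D : ℕ) : ∃ c₀ : ℕ, ∀ {m : ℕ} {c : ℕ → Fin m} {i : ℕ}
    {G : ℕ → MvPolynomial (Option (Fin m)) ℝ} {Q : MvPolynomial (Option (Fin m)) ℝ}
    {g : ℕ → ℕ} {a : ℕ} {t M : ℝ} (n : ℕ), i < r → Set.InjOn c (Set.Iio i) →
    (∀ l, (G l).totalDegree ≤ K l) → (∀ l, DepC c l (G l)) → DepC c i Q →
    Q.totalDegree ≤ D → 0 ≤ M →
    (∀ b, NBx c G g a t i b → |eval b Q| ≤ M) → ∀ x b : Option (Fin m) → ℝ, x none = t →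
      (∀ l < i, |x (some (c l)) - eval x (G l)| ≤ 1 / 2 ^ g l) →
      |b none - t| ≤ 1 / 2 ^ (a + n) →
      (∀ l < i, |(b (some (c l)) - eval b (G l)) - (x (some (c l)) - eval x (G l))| ≤
        1 / 2 ^ (g l + n)) →
        |eval b Q - eval x Q| ≤ 2 ^ c₀ / 2 ^ n * M := by
  obtain ⟨K', hK'⟩ : ∃ K' : ℕ → ℕ, K' = fun l => max (K l) D := ⟨_, rfl⟩
  have hKl : ∀ l, K l ≤ K' l := fun l => by rw [hK']; exact le_max_left _ _
  have hDl : ∀ l, D ≤ K' l := fun l => by rw [hK']; exact le_max_right _ _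
  obtain ⟨c₁, D₁, -, hdil⟩ := nbx_dil r K'
  obtain ⟨E, hE⟩ : ∃ E, E = ∑ i ∈ range r, D * dga K' i := ⟨_, rfl⟩
  obtain ⟨C, hC, hshr⟩ := shr_one E
  obtain ⟨c₂, hc₂⟩ := pow_unbounded_of_one_lt C (one_lt_two (α := ℝ))
  refine ⟨c₂ + (c₁ + 1 * D₁), ?_⟩
  intro m c i G Q g a t M n hi hc hdeg hdep hQ hQd hM0 hM x b hx hxl hb0 hb
  have hdeg' : ∀ l, (G l).totalDegree ≤ K' l := fun l => (hdeg l).trans (hKl l)
  obtain ⟨p, h1, h2, h3, h4, h5⟩ := curve_all hc hdeg' hdep x b i le_rfl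
  have h2n : (0 : ℝ) < 2 ^ n := by positivity
  have hEi : D * dga K' i ≤ E := by
    rw [hE]
    exact Finset.single_le_sum (f := fun i => D * dga K' i) (fun _ _ => Nat.zero_le _)
      (mem_range.2 hi)
  have h6 := hshr (MvPolynomial.aeval p Q) (2 ^ (c₁ + 1 * D₁) * M) n
    ((natDegree_aeval_mul Q p h1 hQd).trans hEi) (fun s hs => by
      rw [Pool.KBX.eval_aeval_poly]
      have hs0 := hs.1
      have hs1 := hs.2
      refine hdil (c := c) (i := i) (G := G) (Q := Q) (g := g) (a := a) (t := t) (M := M) 1 hi hc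
        hdeg' hdep hQ (hQd.trans (hDl i)) hM0 hM _ ?_ fun l hl => ?_
      · show |(p none).eval s - t| ≤ _
        have e1 : (p none).eval s - t = s * (b none - t) := by
          rw [h2, hx]
          ring
        rw [e1, abs_mul, abs_of_nonneg hs0]
        calc s * |b none - t| ≤ 2 ^ n * (1 / 2 ^ (a + n)) :=
              mul_le_mul hs1 hb0 (abs_nonneg _) h2n.le
          _ = _ := by
              rw [pow_add]
              field_simp
      · show |(p (some (c l))).eval s - eval (fun o => (p o).eval s) (G l)| ≤ _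
        rw [h3 l hl, add_sub_cancel_left]
        refine (abs_add_le _ _).trans ?_
        have h7 : |s * ((b (some (c l)) - eval b (G l)) - (x (some (c l)) - eval x (G l)))| ≤
            1 / 2 ^ g l := by
          rw [abs_mul, abs_of_nonneg hs0]
          calc s * |(b (some (c l)) - eval b (G l)) - (x (some (c l)) - eval x (G l))| ≤
                2 ^ n * (1 / 2 ^ (g l + n)) := mul_le_mul hs1 (hb l hl) (abs_nonneg _) h2n.le
            _ = _ := by
                rw [pow_add]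
                field_simp
        have h8 := hxl l hl
        have h9 : (2 : ℝ) ^ 1 / 2 ^ g l = 1 / 2 ^ g l + 1 / 2 ^ g l := by
          rw [pow_one]
          ring
        rw [h9]
        exact add_le_add h8 h7)
  rw [Pool.KBX.eval_aeval_poly, Pool.KBX.eval_aeval_poly] at h6
  have e1 : eval (fun o => (p o).eval 1) Q = eval b Q := hQ _ _ (by
    show (p none).eval 1 = b none
    rw [h2]
    ring) h5
  have e0 : eval (fun o => (p o).eval 0) Q = eval x Q := hQ _ _ (by
    show (p none).eval 0 = x none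
    rw [h2]
    ring) h4
  rw [e1, e0] at h6
  refine h6.trans ?_
  have h7 : 0 ≤ (2 : ℝ) ^ (c₁ + 1 * D₁) * M := by positivity
  calc C * (2 ^ (c₁ + 1 * D₁) * M) / 2 ^ n ≤ 2 ^ c₂ * (2 ^ (c₁ + 1 * D₁) * M) / 2 ^ n :=
        div_le_div_of_nonneg_right (mul_le_mul_of_nonneg_right hc₂.le h7) h2n.le
    _ = _ := by
        rw [pow_add 2 c₂]
        ring

end Pool.STG
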